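import Pool.Agent.Hhelper23.CV.Case2

set_option autoImplicit false
set_option linter.unusedSectionVars false

open Filter Topology Metric

namespace Pool.Agent.Hhelper23.CV

section
variable {ι : Type} {𝒰 : Ultrafilter ι}

theorem thmA (n : ℕ) : ∀ (E : Type) [NormedAddCommGroup E] [NormedSpace ℂ E]
    [FiniteDimensional ℂ E], Module.finrank ℂ E = n → ∀ z : ι → E, Tendsto z 𝒰 (𝓝 0) →
    ∀ h : UL 𝒰, IsAlgebraic (Az 𝒰 z) h →
      (∀ δ : Derivation ℂ (UL 𝒰) (UL 𝒰), Reg z δ → δ h = 0) → IsAlgebraic ℂ h := by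
  induction n using Nat.strong_induction_on with
  | _ n ih =>
    intro E _ _ _ hn z hz h halg hkill
    by_cases hker : ∀ g : E → ℂ, Hol g → piz 𝒰 z g = 0 → ∀ᶠ x in 𝓝 (0:E), g x = 0
    · exact case1 hz hker halg hkill
    push Not at hker
    obtain ⟨g, hg, hg0, hgne⟩ := hker
    have hgne' : ¬ ∀ᶠ x in 𝓝 (0:E), g x = 0 := by
      intro hcon
      exact hgne (hcon.mono fun x hx h => h hx)
    obtain ⟨v, hv⟩ := exists_direction hg hgne'
    have hv0 : v ≠ 0 := by
      rintro rfl
      apply hv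
      have h1 : Tendsto (fun j => g (z j)) 𝒰 (𝓝 (g 0)) :=
        (hg.self_of_nhds.continuousAt.tendsto).comp hz
      have h2 : ∀ᶠ j in (𝒰 : Filter ι), g (z j) = 0 := by
        rwa [piz_apply, mkU_eq_zero_iff] at hg0
      have h3 : Tendsto (fun j => g (z j)) 𝒰 (𝓝 0) :=
        (tendsto_congr' h2).2 tendsto_const_nhds
      have h4 : g 0 = 0 := tendsto_nhds_unique h1 h3
      exact Eventually.of_forall fun t => by rw [smul_zero, h4]
    obtain ⟨ℓ, hℓ⟩ := SeparatingDual.exists_eq_one (R := ℂ) hv0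
    let F : Submodule ℂ E := LinearMap.ker (ℓ : E →ₗ[ℂ] ℂ)
    let T₁ : E →L[ℂ] E := ContinuousLinearMap.id ℂ E - ℓ.smulRight v
    have hT₁ : ∀ x, T₁ x ∈ F := by
      intro x
      show ℓ (x - ℓ x • v) = 0
      rw [map_sub, map_smul, hℓ, smul_eq_mul, mul_one, sub_self]
    let T : E →L[ℂ] F × ℂ := (T₁.codRestrict F hT₁).prod ℓ
    let T' : F × ℂ →L[ℂ] E := F.subtypeL.comp (ContinuousLinearMap.fst ℂ F ℂ) +
      (ContinuousLinearMap.snd ℂ F ℂ).smulRight v
    have hTT : ∀ x, T' (T x) = x := by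
      intro x
      show (x - ℓ x • v) + ℓ x • v = x
      abel
    set z' : ι → F × ℂ := fun j => T (z j) with hz'
    have hz't : Tendsto z' 𝒰 (𝓝 0) := by
      have := (T.continuous.tendsto 0).comp hz
      rwa [map_zero] at this
    have hzz : (fun j => T' (z' j)) = z := by
      funext j
      exact hTT _
    have hG : Hol (fun p => g (T' p)) := hg.comp_clm T'
    have hG0 : piz 𝒰 z' (fun p => g (T' p)) = 0 := by
      rw [← hg0]
      conv_rhs => rw [← hzz]
      rfl
    have hGne : ¬ ∀ᶠ y in 𝓝 (0:ℂ), (fun p => g (T' p)) ((0:F), y) = 0 := by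
      intro hcon
      apply hv
      filter_upwards [hcon] with t ht
      have : T' ((0:F), t) = t • v := by
        show ((0:F) : E) + t • v = t • v
        simp
      rwa [this] at ht
    have hlt : Module.finrank ℂ F < n := by
      rw [← hn]
      apply Submodule.finrank_lt
      intro htop
      have : v ∈ F := by rw [htop]; trivial
      have h1 : ℓ v = 0 := this
      rw [hℓ] at h1
      exact one_ne_zero h1
    have hxt : Tendsto (fun j => (z' j).1) 𝒰 (𝓝 0) :=
      (continuous_fst.tendsto (0 : F × ℂ)).comp hz't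
    refine ih _ hlt F rfl (fun j => (z' j).1) hxt h ?_ ?_
    · refine isAlgebraic_of_forall_mem (B := Az 𝒰 z) (fun b hb => ?_) halg
      apply case2_alg hz't hG hG0 hGne
      rw [← hzz] at hb
      exact Az_map_le z' T' hb
    · intro δ hδ
      apply hkill
      have h1 := case2_reg hz't hG hG0 hGne hδ
      have h2 := h1.map hz't T'
      rwa [hzz] at h2

/-- **Critical values of a holomorphic function of several variables are locally constant**:
if `z j → 0` along an ultrafilter and each `z j` is a critical point of `f`, then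
`f (z j) = f 0` eventually. -/
theorem critical_value {E : Type} [NormedAddCommGroup E] [NormedSpace ℂ E]
    [FiniteDimensional ℂ E] {f : E → ℂ} (hf : ∀ᶠ x in 𝓝 (0:E), DifferentiableAt ℂ f x)
    {z : ι → E} (hz : Tendsto z 𝒰 (𝓝 0))
    (hcrit : ∀ᶠ j in (𝒰 : Filter ι), fderiv ℂ f (z j) = 0) :
    ∀ᶠ j in (𝒰 : Filter ι), f (z j) = f 0 := by
  have hf' : Hol f := hf
  have h1 : IsAlgebraic ℂ (piz 𝒰 z f) := by
    refine thmA _ E rfl z hz _ ?_ ?_
    · exact isAlgebraic_algebraMap (⟨piz 𝒰 z f, piz_mem_Az hf'⟩ : Az 𝒰 z)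
    · rintro δ ⟨κ, _, s, v, hv⟩
      rw [hv f hf']
      refine Finset.sum_eq_zero fun i _ => ?_
      have : Dz 𝒰 z (v i) f = 0 := by
        rw [Dz, mkU_eq_zero_iff]
        filter_upwards [hcrit] with j hj
        rw [hj]; rfl
      rw [this, mul_zero]
  have h2 : IsIntegral ℂ (piz 𝒰 z f) := h1.isIntegral
  obtain ⟨c, hc⟩ : piz 𝒰 z f ∈ (algebraMap ℂ (UL 𝒰)).range := by
    apply minpoly.mem_range_of_degree_eq_one
    exact IsAlgClosed.degree_eq_one_of_irreducible ℂ (minpoly.irreducible h2)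
  have h3 : ∀ᶠ j in (𝒰 : Filter ι), c = f (z j) := by
    rw [algebraMap_UL, piz_apply, mkU_eq_iff] at hc
    exact hc
  have h4 : Tendsto (fun j => f (z j)) 𝒰 (𝓝 (f 0)) :=
    (hf.self_of_nhds.continuousAt.tendsto).comp hz
  have h5 : Tendsto (fun j => f (z j)) 𝒰 (𝓝 c) :=
    (tendsto_congr' h3).1 tendsto_const_nhds
  have h6 : f 0 = c := tendsto_nhds_unique h4 h5
  filter_upwards [h3] with j hj
  rw [h6, hj]

end

end Pool.Agent.Hhelper23.CV
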