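import Pool.Agent.Hhelper23.CV.Wron

set_option autoImplicit false
set_option linter.unusedSectionVars false

open Filter Topology Metric

namespace Pool.Agent.Hhelper23.CV

section
variable {E : Type} [NormedAddCommGroup E] [NormedSpace ℂ E] [FiniteDimensional ℂ E]
  {ι : Type} {𝒰 : Ultrafilter ι} {z : ι → E}

lemma exists_deriv_Az (hz : Tendsto z 𝒰 (𝓝 0))
    (hker : ∀ g : E → ℂ, Hol g → piz 𝒰 z g = 0 → ∀ᶠ x in 𝓝 (0:E), g x = 0) (v : E) :
    ∃ δ : Derivation ℂ (UL 𝒰) (UL 𝒰), ∀ g : E → ℂ, Hol g → δ (piz 𝒰 z g) = Dz 𝒰 z v g := by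
  choose rep hrepH hrep using fun a : Az 𝒰 z => mem_Az.1 a.2
  have key : ∀ (a : Az 𝒰 z) (g : E → ℂ), Hol g → piz 𝒰 z g = a →
      Dz 𝒰 z v (rep a) = Dz 𝒰 z v g := by
    intro a g hg hga
    have h1 : piz 𝒰 z (rep a - g) = 0 := by
      rw [map_sub, hrep, hga, sub_self]
    have h2 := hker _ ((hrepH a).sub hg) h1
    refine Dz_congr hz v ?_
    filter_upwards [h2] with x hx
    exact sub_eq_zero.1 hx
  let d₀ : Az 𝒰 z →ₗ[ℂ] UL 𝒰 :=
    { toFun := fun a => Dz 𝒰 z v (rep a)
      map_add' := fun a b => by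
        rw [key (a + b) (rep a + rep b) ((hrepH a).add (hrepH b)) (by
          rw [map_add, hrep, hrep]; rfl)]
        exact Dz_add hz v (hrepH a) (hrepH b)
      map_smul' := fun c a => by
        rw [key (c • a) ((fun _ => c) * rep a) ((Hol.const c).mul (hrepH a)) (by
          rw [map_mul, hrep]
          have : piz 𝒰 z (fun _ => c) = algebraMap ℂ (UL 𝒰) c := rfl
          rw [this, ← Algebra.smul_def]
          rfl)]
        rw [Dz_mul hz v (Hol.const c) (hrepH a), Dz_const, mul_zero, add_zero]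
        have : piz 𝒰 z (fun _ => c) = algebraMap ℂ (UL 𝒰) c := rfl
        rw [this, ← Algebra.smul_def]
        rfl }
  let d : Derivation ℂ (Az 𝒰 z) (UL 𝒰) := Derivation.mk' d₀ (fun a b => by
    show Dz 𝒰 z v (rep (a * b)) = a • Dz 𝒰 z v (rep b) + b • Dz 𝒰 z v (rep a)
    rw [key (a * b) (rep a * rep b) ((hrepH a).mul (hrepH b)) (by
          rw [map_mul, hrep, hrep]; rfl)]
    rw [Dz_mul hz v (hrepH a) (hrepH b), hrep, hrep]
    rfl)
  obtain ⟨δ, hδ⟩ := exists_derivation_extension (Az 𝒰 z) d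
  refine ⟨δ, fun g hg => ?_⟩
  have h1 := hδ ⟨piz 𝒰 z g, piz_mem_Az hg⟩
  rw [show ((⟨piz 𝒰 z g, piz_mem_Az hg⟩ : Az 𝒰 z) : UL 𝒰) = piz 𝒰 z g from rfl] at h1
  rw [h1]
  exact key _ g hg rfl

theorem case1 (hz : Tendsto z 𝒰 (𝓝 0))
    (hker : ∀ g : E → ℂ, Hol g → piz 𝒰 z g = 0 → ∀ᶠ x in 𝓝 (0:E), g x = 0)
    {h : UL 𝒰} (halg : IsAlgebraic (Az 𝒰 z) h)
    (hkill : ∀ δ : Derivation ℂ (UL 𝒰) (UL 𝒰), Reg z δ → δ h = 0) : IsAlgebraic ℂ h := by
  classical
  -- minimal polynomial
  have hex : ∃ n : ℕ, ∃ p : Polynomial (Az 𝒰 z), p ≠ 0 ∧ Polynomial.aeval h p = 0 ∧ p.natDegree = n := by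
    obtain ⟨p, hp0, hp⟩ := halg
    exact ⟨_, p, hp0, hp, rfl⟩
  obtain ⟨p, hp0, hp, hpe⟩ := Nat.find_spec hex
  have hmin : ∀ q : Polynomial (Az 𝒰 z), Polynomial.aeval h q = 0 → q.natDegree < p.natDegree →
      q = 0 := by
    intro q hq hlt
    by_contra hq0
    rw [hpe] at hlt
    exact Nat.find_min hex hlt ⟨q, hq0, hq, rfl⟩
  set e := p.natDegree with he
  choose a haH ha using fun j : ℕ => mem_Az.1 (p.coeff j).2
  have hsum : ∑ j ∈ Finset.range (e + 1), piz 𝒰 z (a j) * h ^ j = 0 := by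
    rw [Polynomial.aeval_eq_sum_range] at hp
    rw [← hp]
    refine Finset.sum_congr rfl fun j _ => ?_
    rw [ha j, Algebra.smul_def]
    rfl
  have hlead : piz 𝒰 z (a e) ≠ 0 := by
    rw [ha e]
    intro h0
    apply hp0
    rw [← Polynomial.leadingCoeff_eq_zero]
    exact Subtype.ext h0
  -- derivative relation
  have hD : ∀ v : E, ∀ j ∈ Finset.range e,
      piz 𝒰 z (a e) * Dz 𝒰 z v (a j) = piz 𝒰 z (a j) * Dz 𝒰 z v (a e) := by
    intro v
    obtain ⟨δ, hδ⟩ := exists_deriv_Az hz hker v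
    have hreg : Reg z δ := ⟨Unit, inferInstance, fun _ => 1, fun _ => v, fun g hg => by
      rw [hδ g hg]; simp⟩
    have hδh := hkill δ hreg
    have h1 : ∑ j ∈ Finset.range (e + 1), Dz 𝒰 z v (a j) * h ^ j = 0 := by
      have := congrArg δ hsum
      rw [map_zero, map_sum] at this
      rw [← this]
      refine Finset.sum_congr rfl fun j _ => ?_
      rw [Derivation.leibniz, Derivation.leibniz_pow, hδh, smul_zero, smul_zero, smul_zero,
        zero_add, hδ _ (haH j), smul_eq_mul, mul_comm]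
    have hmem : ∀ j, Dz 𝒰 z v (a j) ∈ Az 𝒰 z := fun j => piz_mem_Az ((haH j).pderiv v)
    set β : ℕ → Az 𝒰 z := fun j => ⟨Dz 𝒰 z v (a j), hmem j⟩ with hβ
    set Q : Polynomial (Az 𝒰 z) := ∑ j ∈ Finset.range e,
      Polynomial.monomial j (p.coeff e * β j - p.coeff j * β e) with hQ
    have hQ0 : Q = 0 := by
      by_cases hQne : Q = 0
      · exact hQne
      apply hmin
      · rw [hQ, map_sum]
        have : ∀ j ∈ Finset.range e, Polynomial.aeval h
            (Polynomial.monomial j (p.coeff e * β j - p.coeff j * β e)) =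
            piz 𝒰 z (a e) * (Dz 𝒰 z v (a j) * h ^ j) - Dz 𝒰 z v (a e) * (piz 𝒰 z (a j) * h ^ j) := by
          intro j _
          rw [Polynomial.aeval_monomial, map_sub, map_mul, map_mul]
          have e1 : ∀ j, algebraMap (Az 𝒰 z) (UL 𝒰) (p.coeff j) = piz 𝒰 z (a j) := fun j => (ha j).symm
          have e2 : ∀ j, algebraMap (Az 𝒰 z) (UL 𝒰) (β j) = Dz 𝒰 z v (a j) := fun j => rfl
          rw [e1, e1, e2, e2]
          ring
        rw [Finset.sum_congr rfl this, Finset.sum_sub_distrib, ← Finset.mul_sum, ← Finset.mul_sum]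
        rw [Finset.sum_range_succ] at hsum h1
        have e3 := eq_neg_of_add_eq_zero_left hsum
        have e4 := eq_neg_of_add_eq_zero_left h1
        rw [e3, e4]
        ring
      · by_cases he0 : e = 0
        · exfalso
          apply hQne
          rw [hQ, he0, Finset.range_zero, Finset.sum_empty]
        rw [Polynomial.natDegree_lt_iff_degree_lt hQne, hQ]
        refine lt_of_le_of_lt (Polynomial.degree_sum_le _ _) ?_
        rw [Finset.sup_lt_iff (by exact_mod_cast WithBot.bot_lt_coe e)]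
        intro j hj
        refine lt_of_le_of_lt (Polynomial.degree_monomial_le _ _) ?_
        exact_mod_cast Finset.mem_range.1 hj
    intro j hj
    have hc : Q.coeff j = p.coeff e * β j - p.coeff j * β e := by
      rw [hQ, Polynomial.finsetSum_coeff]
      simp only [Polynomial.coeff_monomial]
      rw [Finset.sum_ite_eq' (Finset.range e) j]
      rw [if_pos hj]
    rw [hQ0, Polynomial.coeff_zero] at hc
    have := sub_eq_zero.1 hc.symm
    have h2 := congrArg (fun x : Az 𝒰 z => (x : UL 𝒰)) this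
    simp only [MulMemClass.coe_mul] at h2
    rw [← ha e, ← ha j] at h2
    exact h2
  have hD' : ∀ v : E, ∀ j ∈ Finset.range (e + 1),
      piz 𝒰 z (a e) * Dz 𝒰 z v (a j) = piz 𝒰 z (a j) * Dz 𝒰 z v (a e) := by
    intro v j hj
    rcases Nat.lt_succ_iff_lt_or_eq.1 (Finset.mem_range.1 hj) with h1 | h1
    · exact hD v j (Finset.mem_range.2 h1)
    · rw [h1]
  have hnear : ∀ v : E, ∀ j ∈ Finset.range (e + 1), ∀ᶠ x in 𝓝 (0:E),
      a e x * fderiv ℂ (a j) x v = a j x * fderiv ℂ (a e) x v := by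
    intro v j hj
    have h1 := hker ((a e) * (fun x => fderiv ℂ (a j) x v) - (a j) * (fun x => fderiv ℂ (a e) x v))
      (((haH e).mul ((haH j).pderiv v)).sub ((haH j).mul ((haH e).pderiv v))) (by
        rw [map_sub, map_mul, map_mul, ← Dz_eq_piz, ← Dz_eq_piz, hD' v j hj, sub_self])
    filter_upwards [h1] with x hx
    exact sub_eq_zero.1 hx
  have hnear' : ∀ j ∈ Finset.range (e + 1), ∀ᶠ x in 𝓝 (0:E), ∀ v : E,
      a e x * fderiv ℂ (a j) x v = a j x * fderiv ℂ (a e) x v := by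
    intro j hj
    let b := Module.finBasis ℂ E
    have h1 : ∀ᶠ x in 𝓝 (0:E), ∀ i, a e x * fderiv ℂ (a j) x (b i) = a j x * fderiv ℂ (a e) x (b i) :=
      eventually_all.2 fun i => hnear (b i) j hj
    filter_upwards [h1] with x hx
    have h2 : (a e x • fderiv ℂ (a j) x : E →L[ℂ] ℂ).toLinearMap =
        (a j x • fderiv ℂ (a e) x : E →L[ℂ] ℂ).toLinearMap := by
      refine b.ext fun i => ?_
      simpa using hx i
    intro v
    have := LinearMap.congr_fun h2 v
    simpa using this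
  have hne : ¬ ∀ᶠ x in 𝓝 (0:E), a e x = 0 := by
    intro h0
    apply hlead
    rw [piz_apply, mkU_eq_zero_iff]
    exact hz.eventually h0
  have hc : ∀ j, ∃ c : ℂ, j ∈ Finset.range (e + 1) → ∀ᶠ x in 𝓝 (0:E), a j x = c * a e x := by
    intro j
    by_cases hj : j ∈ Finset.range (e + 1)
    · obtain ⟨c, hc⟩ := wronskian (haH j) (haH e) hne (hnear' j hj)
      exact ⟨c, fun _ => hc⟩
    · exact ⟨0, fun h => absurd h hj⟩
  choose c hc using hc
  have hpc : ∀ j ∈ Finset.range (e + 1), piz 𝒰 z (a j) = algebraMap ℂ (UL 𝒰) (c j) * piz 𝒰 z (a e) := by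
    intro j hj
    rw [algebraMap_UL, piz_apply, piz_apply, ← map_mul, mkU_eq_iff]
    exact hz.eventually (hc j hj)
  refine ⟨∑ j ∈ Finset.range (e + 1), Polynomial.monomial j (c j), ?_, ?_⟩
  · intro h0
    have h1 : (∑ j ∈ Finset.range (e + 1), Polynomial.monomial j (c j)).coeff e = c e := by
      rw [Polynomial.finsetSum_coeff]
      simp only [Polynomial.coeff_monomial]
      rw [Finset.sum_ite_eq' (Finset.range (e + 1)) e, if_pos (Finset.self_mem_range_succ e)]
    rw [h0, Polynomial.coeff_zero] at h1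
    apply hlead
    rw [hpc e (Finset.self_mem_range_succ e), ← h1, map_zero, zero_mul]
  · rw [map_sum]
    have h1 : piz 𝒰 z (a e) * ∑ j ∈ Finset.range (e + 1), Polynomial.aeval h (Polynomial.monomial j (c j)) = 0 := by
      rw [← hsum, Finset.mul_sum]
      refine Finset.sum_congr rfl fun j hj => ?_
      rw [Polynomial.aeval_monomial, hpc j hj]
      ring
    exact (mul_eq_zero.1 h1).resolve_left hlead

end

end Pool.Agent.Hhelper23.CV
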