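import Pool.Agent.Hhelper23.CV.Case1

set_option autoImplicit false
set_option linter.unusedSectionVars false

open Filter Topology Metric

namespace Pool.Agent.Hhelper23.CV

section
variable {E : Type} [NormedAddCommGroup E] [NormedSpace ℂ E]
  {ι : Type} {𝒰 : Ultrafilter ι} {z : ι → E}

/-- the functions on which a derivation is given by a vector field along `z` -/
def agreeSub (hz : Tendsto z 𝒰 (𝓝 0)) (δ : Derivation ℂ (UL 𝒰) (UL 𝒰)) {κ : Type} [Fintype κ]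
    (s : κ → UL 𝒰) (v : κ → E) : Subalgebra ℂ (E → ℂ) where
  carrier := {g | Hol g ∧ δ (piz 𝒰 z g) = ∑ i, s i * Dz 𝒰 z (v i) g}
  mul_mem' := by
    rintro f g ⟨hf, hf2⟩ ⟨hg, hg2⟩
    refine ⟨hf.mul hg, ?_⟩
    rw [map_mul, Derivation.leibniz, hf2, hg2, smul_eq_mul, smul_eq_mul, Finset.mul_sum,
      Finset.mul_sum, ← Finset.sum_add_distrib]
    refine Finset.sum_congr rfl fun i _ => ?_
    rw [Dz_mul hz _ hf hg]
    ring
  add_mem' := by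
    rintro f g ⟨hf, hf2⟩ ⟨hg, hg2⟩
    refine ⟨hf.add hg, ?_⟩
    rw [map_add, map_add, hf2, hg2, ← Finset.sum_add_distrib]
    refine Finset.sum_congr rfl fun i _ => ?_
    rw [Dz_add hz _ hf hg]
    ring
  algebraMap_mem' c := by
    refine ⟨Hol.const c, ?_⟩
    have h1 : piz 𝒰 z (algebraMap ℂ (E → ℂ) c) = algebraMap ℂ (UL 𝒰) c := rfl
    rw [h1, Derivation.map_algebraMap]
    symm
    refine Finset.sum_eq_zero fun i _ => ?_
    have h2 : Dz 𝒰 z (v i) (algebraMap ℂ (E → ℂ) c) = 0 := Dz_const z (v i) c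
    rw [h2, mul_zero]

end

section
variable {F : Type} [NormedAddCommGroup F] [NormedSpace ℂ F] [FiniteDimensional ℂ F]
  {ι : Type} {𝒰 : Ultrafilter ι} {z : ι → F × ℂ}

lemma hol_snd : Hol (fun p : F × ℂ => p.2) :=
  Eventually.of_forall fun _ => differentiableAt_snd

lemma monic_poly_not_ev_zero {k : ℕ} (c : Fin k → ℂ) :
    ¬ ∀ᶠ y in 𝓝 (0:ℂ), y ^ k - ∑ j : Fin k, c j * y ^ (j:ℕ) = 0 := by
  intro h
  set P : Polynomial ℂ := Polynomial.X ^ k - ∑ j : Fin k, Polynomial.monomial (j:ℕ) (c j) with hP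
  have hdeg : (∑ j : Fin k, Polynomial.monomial (j:ℕ) (c j)).degree < (k : WithBot ℕ) := by
    refine lt_of_le_of_lt (Polynomial.degree_sum_le _ _) ?_
    rw [Finset.sup_lt_iff (by exact_mod_cast WithBot.bot_lt_coe k)]
    intro j hj
    refine lt_of_le_of_lt (Polynomial.degree_monomial_le _ _) ?_
    exact_mod_cast j.2
  have hmon : P.Monic := by
    rw [hP]
    exact Polynomial.monic_X_pow_sub hdeg
  have hP0 : P ≠ 0 := hmon.ne_zero
  have heval : ∀ y : ℂ, P.eval y = y ^ k - ∑ j : Fin k, c j * y ^ (j:ℕ) := by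
    intro y
    rw [hP, Polynomial.eval_sub, Polynomial.eval_pow, Polynomial.eval_X, Polynomial.eval_finsetSum]
    simp only [Polynomial.eval_monomial]
  have hfin : Set.Finite {y : ℂ | P.IsRoot y} := Polynomial.finite_setOfPred_isRoot hP0
  obtain ⟨ε, hε, hb⟩ := Metric.eventually_nhds_iff_ball.1 h
  have hsub : ball (0:ℂ) ε ⊆ {y : ℂ | P.IsRoot y} := fun y hy => by
    show P.eval y = 0
    rw [heval y]
    exact hb y hy
  have hinf : (ball (0:ℂ) ε).Infinite := infinite_of_mem_nhds (0:ℂ) (ball_mem_nhds _ hε)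
  exact hinf (hfin.subset hsub)

/-- A Weierstrass polynomial vanishing along `z`. -/
lemma exists_weierstrass (hz : Tendsto z 𝒰 (𝓝 0)) {G : F × ℂ → ℂ} (hG : Hol G)
    (hG0 : piz 𝒰 z G = 0) (hne : ¬ ∀ᶠ y in 𝓝 (0:ℂ), G (0, y) = 0) :
    ∃ (k : ℕ) (c : Fin k → F → ℂ), (∀ j, Hol (c j)) ∧
      piz 𝒰 z (fun p => p.2 ^ k - ∑ j : Fin k, c j p.1 * p.2 ^ (j:ℕ)) = 0 := by
  obtain ⟨k, hk⟩ := weierstrass_division hG hne
  obtain ⟨q, c, hq, hc, hqc⟩ := hk (fun p => p.2 ^ k)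
    (Eventually.of_forall fun _ => differentiableAt_snd.pow k)
  refine ⟨k, fun j x => c x j, fun j => ?_, ?_⟩
  · filter_upwards [hc] with x hx
    exact differentiableAt_pi.1 hx j
  · have h1 : (fun p : F × ℂ => p.2 ^ k - ∑ j : Fin k, c p.1 j * p.2 ^ (j:ℕ)) =ᶠ[𝓝 0] q * G := by
      filter_upwards [hqc] with p hp
      rw [hp]
      simp
    rw [piz_congr hz h1, map_mul, hG0, mul_zero]

lemma case2_division (hz : Tendsto z 𝒰 (𝓝 0)) {G : F × ℂ → ℂ} (hG : Hol G)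
    (hG0 : piz 𝒰 z G = 0) (hne : ¬ ∀ᶠ y in 𝓝 (0:ℂ), G (0, y) = 0) :
    ∃ (k : ℕ) (c : Fin k → F → ℂ) (k' : ℕ), (∀ j, Hol (c j)) ∧
      piz 𝒰 z (fun p => p.2 ^ k - ∑ j : Fin k, c j p.1 * p.2 ^ (j:ℕ)) = 0 ∧
      ∀ g : F × ℂ → ℂ, Hol g → ∃ (q : F × ℂ → ℂ) (b : Fin k' → F → ℂ), Hol q ∧ (∀ j, Hol (b j)) ∧
        ∀ᶠ p in 𝓝 (0 : F × ℂ), g p = q p * (p.2 ^ k - ∑ j : Fin k, c j p.1 * p.2 ^ (j:ℕ)) +
          ∑ j : Fin k', b j p.1 * p.2 ^ (j:ℕ) := by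
  obtain ⟨k, c, hc, hc0⟩ := exists_weierstrass hz hG hG0 hne
  have hH : Hol (fun p : F × ℂ => p.2 ^ k - ∑ j : Fin k, c j p.1 * p.2 ^ (j:ℕ)) := by
    have h1 : Hol ((fun p : F × ℂ => p.2) ^ k - ∑ j : Fin k, (fun p : F × ℂ => c j p.1) *
        (fun p : F × ℂ => p.2) ^ (j:ℕ)) :=
      (hol_snd.pow k).sub (Hol.sum _ fun j _ => ((hc j).comp_clm
        (ContinuousLinearMap.fst ℂ F ℂ)).mul (hol_snd.pow (j:ℕ)))
    convert h1 using 1
    ext p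
    simp
  obtain ⟨k', hk'⟩ := weierstrass_division hH (monic_poly_not_ev_zero (fun j => c j 0))
  refine ⟨k, c, k', hc, hc0, fun g hg => ?_⟩
  obtain ⟨q, b, hq, hb, hqb⟩ := hk' g hg
  refine ⟨q, fun j x => b x j, hq, fun j => ?_, hqb⟩
  filter_upwards [hb] with x hx
  exact differentiableAt_pi.1 hx j

lemma case2_alg (hz : Tendsto z 𝒰 (𝓝 0)) {G : F × ℂ → ℂ} (hG : Hol G)
    (hG0 : piz 𝒰 z G = 0) (hne : ¬ ∀ᶠ y in 𝓝 (0:ℂ), G (0, y) = 0) :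
    ∀ b ∈ Az 𝒰 z, IsAlgebraic (Az 𝒰 (fun j => (z j).1)) b := by
  obtain ⟨k, c, k', hc, hc0, hdiv⟩ := case2_division hz hG hG0 hne
  set A := Az 𝒰 (fun j => (z j).1) with hA
  have hcA : ∀ a : F → ℂ, Hol a → piz 𝒰 z (fun p => a p.1) ∈ A := fun a ha =>
    mem_Az.2 ⟨a, ha, rfl⟩
  have hpoly : ∀ (n : ℕ) (b : Fin n → F → ℂ), (piz 𝒰 z fun p => ∑ j : Fin n, b j p.1 * p.2 ^ (j:ℕ)) =
      ∑ j : Fin n, piz 𝒰 z (fun p => b j p.1) * (piz 𝒰 z fun p => p.2) ^ (j:ℕ) := by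
    intro n b
    have : (fun p : F × ℂ => ∑ j : Fin n, b j p.1 * p.2 ^ (j:ℕ)) =
        ∑ j : Fin n, (fun p : F × ℂ => b j p.1) * (fun p : F × ℂ => p.2) ^ (j:ℕ) := by
      ext p; simp
    rw [this, map_sum]
    refine Finset.sum_congr rfl fun j _ => ?_
    rw [map_mul, map_pow]
  have hY : IsAlgebraic A (piz 𝒰 z fun p => p.2) := by
    apply IsIntegral.isAlgebraic
    refine ⟨Polynomial.X ^ k - ∑ j : Fin k, Polynomial.monomial (j:ℕ)
      (⟨piz 𝒰 z (fun p => c j p.1), hcA _ (hc j)⟩ : A), ?_, ?_⟩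
    · apply Polynomial.monic_X_pow_sub
      refine lt_of_le_of_lt (Polynomial.degree_sum_le _ _) ?_
      rw [Finset.sup_lt_iff (by exact_mod_cast WithBot.bot_lt_coe k)]
      intro j hj
      refine lt_of_le_of_lt (Polynomial.degree_monomial_le _ _) ?_
      exact_mod_cast j.2
    · rw [Polynomial.eval₂_sub, Polynomial.eval₂_pow, Polynomial.eval₂_X,
        Polynomial.eval₂_finsetSum]
      simp only [Polynomial.eval₂_monomial]
      have h1 : (fun p : F × ℂ => p.2 ^ k - ∑ j : Fin k, c j p.1 * p.2 ^ (j:ℕ)) =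
          (fun p : F × ℂ => p.2) ^ k - (fun p : F × ℂ => ∑ j : Fin k, c j p.1 * p.2 ^ (j:ℕ)) := by
        ext p; simp
      rw [h1, map_sub, map_pow, hpoly] at hc0
      exact hc0
  intro b hb
  obtain ⟨g, hg, rfl⟩ := mem_Az.1 hb
  obtain ⟨q, b, hq, hbH, hqb⟩ := hdiv g hg
  have h1 : g =ᶠ[𝓝 0] q * (fun p => p.2 ^ k - ∑ j : Fin k, c j p.1 * p.2 ^ (j:ℕ)) +
      (fun p => ∑ j : Fin k', b j p.1 * p.2 ^ (j:ℕ)) := by
    filter_upwards [hqb] with p hp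
    rw [hp]; rfl
  rw [piz_congr hz h1, map_add, map_mul, hc0, mul_zero, zero_add, hpoly]
  have hmem : ∀ x : UL 𝒰, IsAlgebraic A x ↔ x ∈ Subalgebra.algebraicClosure A (UL 𝒰) :=
    fun x => Iff.rfl
  rw [hmem]
  refine Subalgebra.sum_mem _ fun j _ => Subalgebra.mul_mem _ ?_ (Subalgebra.pow_mem _ hY _)
  exact Subalgebra.algebraMap_mem _ (⟨piz 𝒰 z (fun p => b j p.1), hcA _ (hbH j)⟩ : A)

lemma case2_reg (hz : Tendsto z 𝒰 (𝓝 0)) {G : F × ℂ → ℂ} (hG : Hol G)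
    (hG0 : piz 𝒰 z G = 0) (hne : ¬ ∀ᶠ y in 𝓝 (0:ℂ), G (0, y) = 0)
    {δ : Derivation ℂ (UL 𝒰) (UL 𝒰)} (hδ : Reg (fun j => (z j).1) δ) : Reg z δ := by
  obtain ⟨k, c, k', hc, hc0, hdiv⟩ := case2_division hz hG hG0 hne
  obtain ⟨κ, _, s, v, hv⟩ := hδ
  set s' : Option κ → UL 𝒰 := fun o => o.elim (δ (piz 𝒰 z fun p => p.2)) s with hs'
  set v' : Option κ → F × ℂ := fun o => o.elim (0, 1) (fun i => (v i, 0)) with hv'
  set S := agreeSub hz δ s' v' with hS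
  have hfst : ∀ a : F → ℂ, Hol a → (fun p : F × ℂ => a p.1) ∈ S := by
    intro a ha
    refine ⟨ha.comp_clm (ContinuousLinearMap.fst ℂ F ℂ), ?_⟩
    have h1 : piz 𝒰 z (fun p : F × ℂ => a p.1) = piz 𝒰 (fun j => (z j).1) a := rfl
    have h2 : ∀ w : F × ℂ, Dz 𝒰 z w (fun p : F × ℂ => a p.1) = Dz 𝒰 (fun j => (z j).1) w.1 a :=
      fun w => Dz_comp hz (ContinuousLinearMap.fst ℂ F ℂ) w ha
    rw [h1, hv a ha, Fintype.sum_option]
    simp only [h2, hs', hv', Option.elim]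
    have h3 : Dz 𝒰 (fun j => (z j).1) (0:F) a = 0 := by
      rw [Dz, mkU_eq_zero_iff]
      exact Eventually.of_forall fun j => by simp
    rw [h3, mul_zero, zero_add]
  have hsnd : (fun p : F × ℂ => p.2) ∈ S := by
    refine ⟨hol_snd, ?_⟩
    have h2 : ∀ w : F × ℂ, Dz 𝒰 z w (fun p : F × ℂ => p.2) = algebraMap ℂ (UL 𝒰) w.2 := by
      intro w
      rw [Dz, algebraMap_UL, mkU_eq_iff]
      refine Eventually.of_forall fun j => ?_
      have : fderiv ℂ (fun p : F × ℂ => p.2) (z j) = ContinuousLinearMap.snd ℂ F ℂ :=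
        (ContinuousLinearMap.snd ℂ F ℂ).hasFDerivAt.fderiv
      rw [this]
      rfl
    rw [Fintype.sum_option]
    simp only [h2, hs', hv', Option.elim]
    simp
  have hpolyS : ∀ (n : ℕ) (b : Fin n → F → ℂ), (∀ j, Hol (b j)) →
      (fun p : F × ℂ => ∑ j : Fin n, b j p.1 * p.2 ^ (j:ℕ)) ∈ S := by
    intro n b hb
    have : (fun p : F × ℂ => ∑ j : Fin n, b j p.1 * p.2 ^ (j:ℕ)) =
        ∑ j : Fin n, (fun p : F × ℂ => b j p.1) * (fun p : F × ℂ => p.2) ^ (j:ℕ) := by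
      ext p; simp
    rw [this]
    exact Subalgebra.sum_mem _ fun j _ => Subalgebra.mul_mem _ (hfst _ (hb j))
      (Subalgebra.pow_mem _ hsnd _)
  have hHS : (fun p : F × ℂ => p.2 ^ k - ∑ j : Fin k, c j p.1 * p.2 ^ (j:ℕ)) ∈ S := by
    have h1 : (fun p : F × ℂ => p.2 ^ k - ∑ j : Fin k, c j p.1 * p.2 ^ (j:ℕ)) =
          (fun p : F × ℂ => p.2) ^ k - (fun p : F × ℂ => ∑ j : Fin k, c j p.1 * p.2 ^ (j:ℕ)) := by
        ext p; simp
    rw [h1]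
    exact Subalgebra.sub_mem _ (Subalgebra.pow_mem _ hsnd _) (hpolyS k c hc)
  refine ⟨Option κ, inferInstance, s', v', fun g hg => ?_⟩
  obtain ⟨q, b, hq, hbH, hqb⟩ := hdiv g hg
  set H : F × ℂ → ℂ := fun p => p.2 ^ k - ∑ j : Fin k, c j p.1 * p.2 ^ (j:ℕ) with hH
  set r : F × ℂ → ℂ := fun p => ∑ j : Fin k', b j p.1 * p.2 ^ (j:ℕ) with hr
  have hgr : g =ᶠ[𝓝 0] q * H + r := by
    filter_upwards [hqb] with p hp
    rw [hp]; rfl
  have hHH : Hol H := hHS.1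
  have hHδ : ∑ i, s' i * Dz 𝒰 z (v' i) H = 0 := by
    have h1 := hHS.2
    rw [hc0, map_zero] at h1
    exact h1.symm
  have hrS := hpolyS k' b hbH
  have h2 : δ (piz 𝒰 z g) = δ (piz 𝒰 z r) := by
    rw [piz_congr hz hgr, map_add, map_mul, hc0, mul_zero, zero_add]
  rw [h2, hrS.2]
  have h3 : ∀ w, Dz 𝒰 z w g = piz 𝒰 z q * Dz 𝒰 z w H + Dz 𝒰 z w r := by
    intro w
    rw [Dz_congr hz w hgr, Dz_add hz w (hq.mul hHH) hrS.1, Dz_mul hz w hq hHH, hc0, zero_mul, add_zero]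
  have h4 : ∑ i, s' i * Dz 𝒰 z (v' i) g =
      piz 𝒰 z q * ∑ i, s' i * Dz 𝒰 z (v' i) H + ∑ i, s' i * Dz 𝒰 z (v' i) r := by
    rw [Finset.mul_sum, ← Finset.sum_add_distrib]
    refine Finset.sum_congr rfl fun i _ => ?_
    rw [h3]
    ring
  rw [h4, hHδ, mul_zero, zero_add]

end

end Pool.Agent.Hhelper23.CV
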