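import Pool.Agent.Hhelper23.CV.Hol

set_option autoImplicit false

open MeasureTheory Complex Metric Set Filter Topology
open scoped ENNReal NNReal Real

namespace Pool.Agent.Hhelper23.CV

/-- the closed disc of radius `r` -/
abbrev DD (r : ℝ) : Set ℂ := closedBall (0:ℂ) r

open Classical in
/-- extension by zero of a continuous function on the closed disc -/
noncomputable def ext {r : ℝ} (w : C(DD r, ℂ)) : ℂ → ℂ := fun y => if h : y ∈ DD r then w ⟨y, h⟩ else 0

lemma ext_apply {r : ℝ} (w : C(DD r, ℂ)) {y : ℂ} (h : y ∈ DD r) : ext w y = w ⟨y, h⟩ := by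
  simp only [ext, h, dif_pos]

lemma ext_add {r : ℝ} (v w : C(DD r, ℂ)) : ext (v + w) = ext v + ext w := by
  funext y
  by_cases h : y ∈ DD r
  · simp only [Pi.add_apply, ext_apply _ h, ContinuousMap.add_apply]
  · simp [ext, h]

lemma ext_smul {r : ℝ} (c : ℂ) (w : C(DD r, ℂ)) : ext (c • w) = c • ext w := by
  funext y
  by_cases h : y ∈ DD r
  · simp only [Pi.smul_apply, ext_apply _ h, ContinuousMap.smul_apply]
  · simp [ext, h]

lemma ext_mul {r : ℝ} (v w : C(DD r, ℂ)) : ext (v * w) = ext v * ext w := by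
  funext y
  by_cases h : y ∈ DD r
  · simp only [Pi.mul_apply, ext_apply _ h, ContinuousMap.mul_apply]
  · simp [ext, h]

lemma ext_zero {r : ℝ} : ext (0 : C(DD r, ℂ)) = 0 := by
  funext y
  by_cases h : y ∈ DD r <;> simp [ext]

lemma continuousOn_ext {r : ℝ} (w : C(DD r, ℂ)) : ContinuousOn (ext w) (DD r) := by
  rw [continuousOn_iff_continuous_domRestrict]
  have : (DD r).domRestrict (ext w) = w := by
    funext y
    simp only [Set.domRestrict_apply, ext_apply w y.2]
  rw [this]
  exact w.continuous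

lemma norm_ext_le {r : ℝ} (w : C(DD r, ℂ)) (y : ℂ) : ‖ext w y‖ ≤ ‖w‖ := by
  by_cases h : y ∈ DD r
  · rw [ext_apply w h]; exact w.norm_coe_le_norm _
  · simp [ext, h]

/-- the disc algebra as a closed subspace of `C(D,ℂ)` -/
def WS (r : ℝ) : Submodule ℂ C(DD r, ℂ) where
  carrier := {w | DifferentiableOn ℂ (ext w) (ball 0 r)}
  add_mem' := by
    intro a b ha hb
    show DifferentiableOn ℂ (ext (a + b)) (ball 0 r)
    rw [ext_add]; exact DifferentiableOn.add ha hb
  zero_mem' := by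
    show DifferentiableOn ℂ (ext 0) (ball 0 r)
    rw [ext_zero]; exact differentiableOn_const (0:ℂ)
  smul_mem' := by
    intro c a ha
    show DifferentiableOn ℂ (ext (c • a)) (ball 0 r)
    rw [ext_smul]; exact DifferentiableOn.const_smul ha c

lemma mem_WS {r : ℝ} {w : C(DD r, ℂ)} : w ∈ WS r ↔ DifferentiableOn ℂ (ext w) (ball 0 r) := Iff.rfl

lemma mul_mem_WS {r : ℝ} {v w : C(DD r, ℂ)} (hv : v ∈ WS r) (hw : w ∈ WS r) : v * w ∈ WS r := by
  rw [mem_WS, ext_mul]; exact DifferentiableOn.mul hv hw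

lemma isClosed_WS (r : ℝ) : IsClosed (WS r : Set C(DD r, ℂ)) := by
  rw [← isSeqClosed_iff_isClosed]
  intro u w hu hlim
  show DifferentiableOn ℂ (ext w) (ball 0 r)
  have hunif : TendstoUniformlyOn (fun n => ext (u n)) (ext w) atTop (ball 0 r) := by
    rw [Metric.tendstoUniformlyOn_iff]
    intro ε hε
    have h1 := (Metric.tendsto_atTop.mp hlim) ε hε
    obtain ⟨N, hN⟩ := h1
    filter_upwards [eventually_ge_atTop N] with n hn y _
    have h2 := hN n hn
    rw [dist_eq_norm] at h2 ⊢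
    have h3 : ext w y - ext (u n) y = - ext (u n - w) y := by
      have e : u n = (u n - w) + w := by abel
      have e2 : ext (u n) y = ext (u n - w) y + ext w y := by
        conv_lhs => rw [e, ext_add]
        rfl
      rw [e2]; ring
    rw [h3, norm_neg]
    exact (norm_ext_le _ _).trans_lt h2
  exact hunif.tendstoLocallyUniformlyOn.differentiableOn (Eventually.of_forall fun n => hu n)
    isOpen_ball

/-- the disc algebra as a type -/
def WW (r : ℝ) : Type := WS r

noncomputable instance (r : ℝ) : NormedAddCommGroup (WW r) :=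
  inferInstanceAs (NormedAddCommGroup (WS r))

noncomputable instance (r : ℝ) : NormedSpace ℂ (WW r) :=
  inferInstanceAs (NormedSpace ℂ (WS r))

instance (r : ℝ) : CompleteSpace (WW r) :=
  (isClosed_WS r).completeSpace_coe

/-- coercion to continuous functions -/
def toC {r : ℝ} (w : WW r) : C(DD r, ℂ) := Subtype.val (show WS r from w)

lemma toC_mem {r : ℝ} (w : WW r) : toC w ∈ WS r := Subtype.property (show WS r from w)

/-- from continuous functions -/
def ofC {r : ℝ} (w : C(DD r, ℂ)) (h : w ∈ WS r) : WW r := (⟨w, h⟩ : WS r)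

lemma toC_ofC {r : ℝ} (w : C(DD r, ℂ)) (h : w ∈ WS r) : toC (ofC w h) = w := rfl

lemma toC_inj {r : ℝ} {v w : WW r} (h : toC v = toC w) : v = w := Subtype.ext h

lemma toC_add {r : ℝ} (v w : WW r) : toC (v + w) = toC v + toC w := rfl

lemma toC_smul {r : ℝ} (c : ℂ) (w : WW r) : toC (c • w) = c • toC w := rfl

lemma toC_zero {r : ℝ} : toC (0 : WW r) = 0 := rfl

lemma norm_toC {r : ℝ} (w : WW r) : ‖toC w‖ = ‖w‖ := rfl

/-- evaluation of an element of the disc algebra -/
noncomputable def ev {r : ℝ} (w : WW r) (y : ℂ) : ℂ := ext (toC w) y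

lemma ev_add {r : ℝ} (v w : WW r) (y : ℂ) : ev (v + w) y = ev v y + ev w y := by
  unfold ev
  rw [toC_add, ext_add]; rfl

lemma ev_zero {r : ℝ} (y : ℂ) : ev (0 : WW r) y = 0 := by
  unfold ev
  rw [toC_zero, ext_zero]; rfl

lemma ev_sub {r : ℝ} (v w : WW r) (y : ℂ) : ev (v - w) y = ev v y - ev w y := by
  have h := ev_add (v - w) w y
  rw [sub_add_cancel] at h
  rw [h]; ring

lemma ev_smul {r : ℝ} (c : ℂ) (w : WW r) (y : ℂ) : ev (c • w) y = c * ev w y := by
  unfold ev
  rw [toC_smul, ext_smul]; rfl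

lemma norm_ev_le {r : ℝ} (w : WW r) (y : ℂ) : ‖ev w y‖ ≤ ‖w‖ := norm_ext_le _ _

lemma differentiableOn_ev {r : ℝ} (w : WW r) : DifferentiableOn ℂ (ev w) (ball 0 r) := toC_mem w

lemma WW_ext {r : ℝ} {v w : WW r} (h : ∀ y ∈ DD r, ev v y = ev w y) : v = w := by
  apply toC_inj
  ext y
  have := h y.1 y.2
  simpa only [ev, ext_apply _ y.2] using this

lemma ball_subset_DD (r : ℝ) : ball (0:ℂ) r ⊆ DD r := ball_subset_closedBall

/-- two elements agreeing off the origin in the open disc are equal -/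
lemma WW_ext' {r : ℝ} (hr : 0 < r) {v w : WW r} (h : ∀ y ∈ ball (0:ℂ) r, y ≠ 0 → ev v y = ev w y) :
    v = w := by
  apply WW_ext
  have hcl : closure (ball (0:ℂ) r \ {0}) = DD r := by
    apply Subset.antisymm
    · exact closure_minimal (sdiff_subset.trans ball_subset_closedBall) isClosed_closedBall
    · have h1 : closure (ball (0:ℂ) r) = DD r := closure_ball _ hr.ne'
      rw [← h1]
      apply closure_minimal _ isClosed_closure
      intro y hy
      by_cases hy0 : y = 0
      · subst hy0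
        have h2 : (0:ℂ) ∈ closure (ball (0:ℂ) r ∩ {0}ᶜ) := by
          apply isOpen_ball.inter_closure
          exact ⟨mem_ball_self hr, by rw [closure_compl_singleton]; trivial⟩
        exact h2
      · exact subset_closure ⟨hy, hy0⟩
  intro y hy
  have hcont1 : ContinuousOn (ev v) (DD r) := continuousOn_ext (toC v)
  have hcont2 : ContinuousOn (ev w) (DD r) := continuousOn_ext (toC w)
  have heq : EqOn (ev v) (ev w) (ball (0:ℂ) r \ {0}) := fun y hy => h y hy.1 hy.2
  have := heq.of_subset_closure hcont1 hcont2 (sdiff_subset.trans ball_subset_closedBall)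
    (by rw [hcl])
  exact this hy

/-- build an element of the disc algebra -/
noncomputable def mkW {r : ℝ} (f : ℂ → ℂ) (hc : ContinuousOn f (DD r))
    (hd : DifferentiableOn ℂ f (ball 0 r)) : WW r :=
  ofC ⟨(DD r).domRestrict f, continuousOn_iff_continuous_domRestrict.mp hc⟩ (by
    rw [mem_WS]
    apply hd.congr
    intro y hy
    rw [ext_apply _ (ball_subset_DD r hy)]
    rfl)

lemma ev_mkW {r : ℝ} (f : ℂ → ℂ) (hc : ContinuousOn f (DD r))
    (hd : DifferentiableOn ℂ f (ball 0 r)) {y : ℂ} (hy : y ∈ DD r) :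
    ev (mkW f hc hd) y = f y := by
  unfold ev mkW
  rw [toC_ofC, ext_apply _ hy]
  rfl

/-- multiplication on the disc algebra -/
noncomputable def mulW {r : ℝ} (v w : WW r) : WW r :=
  ofC (toC v * toC w) (mul_mem_WS (toC_mem v) (toC_mem w))

lemma toC_mulW {r : ℝ} (v w : WW r) : toC (mulW v w) = toC v * toC w := rfl

lemma ev_mulW {r : ℝ} (v w : WW r) (y : ℂ) : ev (mulW v w) y = ev v y * ev w y := by
  unfold ev
  rw [toC_mulW, ext_mul]; rfl

lemma norm_mulW_le {r : ℝ} (v w : WW r) : ‖mulW v w‖ ≤ ‖v‖ * ‖w‖ := by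
  rw [← norm_toC, ← norm_toC, ← norm_toC, toC_mulW]
  exact norm_mul_le _ _

/-- multiplication as a bounded bilinear map -/
noncomputable def mulL (r : ℝ) : WW r →L[ℂ] WW r →L[ℂ] WW r :=
  LinearMap.mkContinuous₂
    (LinearMap.mk₂ ℂ mulW
      (fun a b c => by apply toC_inj; simp only [toC_mulW, toC_add]; ring)
      (fun c a b => by apply toC_inj; simp only [toC_mulW, toC_smul]; rw [smul_mul_assoc])
      (fun a b c => by apply toC_inj; simp only [toC_mulW, toC_add]; ring)
      (fun c a b => by apply toC_inj; simp only [toC_mulW, toC_smul]; rw [mul_smul_comm]))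
    1 (fun a b => by rw [one_mul]; exact norm_mulW_le a b)

lemma mulL_apply {r : ℝ} (v w : WW r) : mulL r v w = mulW v w := rfl

/-- powers of the coordinate -/
noncomputable def powW (r : ℝ) (j : ℕ) : WW r :=
  mkW (fun y => y ^ j) (by fun_prop) (by fun_prop)

lemma ev_powW {r : ℝ} (j : ℕ) {y : ℂ} (hy : y ∈ DD r) : ev (powW r j) y = y ^ j :=
  ev_mkW _ _ _ hy

/-- polynomials of degree `< k` as elements of the disc algebra -/
noncomputable def polW (r : ℝ) (k : ℕ) : (Fin k → ℂ) →L[ℂ] WW r :=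
  ∑ j : Fin k, (ContinuousLinearMap.proj j : (Fin k → ℂ) →L[ℂ] ℂ).smulRight (powW r j)

lemma ev_sum {r : ℝ} {ι : Type*} (s : Finset ι) (w : ι → WW r) (y : ℂ) :
    ev (∑ i ∈ s, w i) y = ∑ i ∈ s, ev (w i) y := by
  classical
  induction s using Finset.induction_on with
  | empty =>
    simp only [Finset.sum_empty]
    exact ev_zero y
  | insert a s ha ih => rw [Finset.sum_insert ha, Finset.sum_insert ha, ev_add, ih]

lemma ev_polW {r : ℝ} (k : ℕ) (c : Fin k → ℂ) {y : ℂ} (hy : y ∈ DD r) :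
    ev (polW r k c) y = ∑ j : Fin k, c j * y ^ (j : ℕ) := by
  unfold polW
  rw [sum_apply, ev_sum]
  apply Finset.sum_congr rfl
  intro j _
  rw [ContinuousLinearMap.smulRight_apply, ev_smul, ev_powW _ hy]
  rfl

/-- the division operator `(q, c) ↦ a q + ∑ c_j y^j` -/
noncomputable def divOp (r : ℝ) (k : ℕ) (a : WW r) : (WW r × (Fin k → ℂ)) →L[ℂ] WW r :=
  (mulL r a).coprod (polW r k)

lemma ev_divOp {r : ℝ} (k : ℕ) (a : WW r) (p : WW r × (Fin k → ℂ)) {y : ℂ} (hy : y ∈ DD r) :
    ev (divOp r k a p) y = ev a y * ev p.1 y + ∑ j : Fin k, p.2 j * y ^ (j : ℕ) := by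
  unfold divOp
  rw [ContinuousLinearMap.coprod_apply, ev_add, mulL_apply, ev_mulW, ev_polW k _ hy]

/-- backward shift -/
lemma exists_shift {r : ℝ} (hr : 0 < r) (w : WW r) :
    ∃ s : WW r, ∀ y ∈ DD r, ev w y = ev w 0 + y * ev s y := by
  have hc : ContinuousOn (ev w) (DD r) := continuousOn_ext (toC w)
  have hd := differentiableOn_ev w
  have h0 : ball (0:ℂ) r ∈ 𝓝 (0:ℂ) := ball_mem_nhds _ hr
  have h0' : DD r ∈ 𝓝 (0:ℂ) := closedBall_mem_nhds _ hr
  have hc' : ContinuousOn (dslope (ev w) 0) (DD r) :=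
    (continuousOn_dslope h0').mpr ⟨hc, hd.differentiableAt h0⟩
  have hd' : DifferentiableOn ℂ (dslope (ev w) 0) (ball 0 r) :=
    (Complex.differentiableOn_dslope h0).mpr hd
  refine ⟨mkW _ hc' hd', fun y hy => ?_⟩
  rw [ev_mkW _ _ _ hy]
  have := sub_smul_dslope (ev w) 0 y
  rw [sub_zero, smul_eq_mul] at this
  rw [this]; ring

/-- one-variable division by `y^k` -/
lemma exists_div_pow {r : ℝ} (hr : 0 < r) (k : ℕ) (w : WW r) :
    ∃ (s : WW r) (c : Fin k → ℂ), ∀ y ∈ DD r,
      ev w y = y ^ k * ev s y + ∑ j : Fin k, c j * y ^ (j : ℕ) := by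
  induction k with
  | zero => exact ⟨w, fun _ => 0, fun y _ => by simp⟩
  | succ k ih =>
    obtain ⟨s, c, hs⟩ := ih
    obtain ⟨s', hs'⟩ := exists_shift hr s
    refine ⟨s', Fin.snoc c (ev s 0), fun y hy => ?_⟩
    rw [hs y hy, hs' y hy, Fin.sum_univ_castSucc]
    simp only [Fin.snoc_castSucc, Fin.snoc_last, Fin.val_castSucc, Fin.val_last]
    ring

/-- a polynomial of degree `< k` which is `O(y^k)` vanishes -/
lemma coeff_eq_zero {k : ℕ} (c : Fin k → ℂ) {r C : ℝ} (hr : 0 < r)
    (h : ∀ y : ℂ, ‖y‖ < r → ‖∑ j : Fin k, c j * y ^ (j : ℕ)‖ ≤ C * ‖y‖ ^ k) : c = 0 := by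
  induction k with
  | zero => exact Subsingleton.elim _ _
  | succ k ih =>
    -- constant coefficient
    have h0 : c 0 = 0 := by
      have := h 0 (by simpa using hr)
      rw [Fin.sum_univ_succ] at this
      simpa using this
    -- shift
    have h1 : (fun j : Fin k => c j.succ) = 0 := by
      have hbound : ∀ y : ℂ, ‖y‖ < r → y ≠ 0 → ‖∑ j : Fin k, c j.succ * y ^ (j : ℕ)‖ ≤ C * ‖y‖ ^ k := by
        intro y hy hy0
        have h2 := h y hy
        rw [Fin.sum_univ_succ, h0, zero_mul, zero_add] at h2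
        have h3 : ∑ j : Fin k, c j.succ * y ^ (j.succ : ℕ) = y * ∑ j : Fin k, c j.succ * y ^ (j : ℕ) := by
          rw [Finset.mul_sum]
          apply Finset.sum_congr rfl
          intro j _
          rw [Fin.val_succ, pow_succ]; ring
        rw [h3, norm_mul] at h2
        have hyn : 0 < ‖y‖ := norm_pos_iff.mpr hy0
        have h4 : ‖y‖ * ‖∑ j : Fin k, c j.succ * y ^ (j : ℕ)‖ ≤ ‖y‖ * (C * ‖y‖ ^ k) := by
          calc _ ≤ C * ‖y‖ ^ (k + 1) := h2
            _ = ‖y‖ * (C * ‖y‖ ^ k) := by ring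
        exact le_of_mul_le_mul_left h4 hyn
      apply ih
      intro y hy
      by_cases hy0 : y = 0
      · -- by continuity
        subst hy0
        have hcont1 : ContinuousWithinAt (fun y : ℂ => ‖∑ j : Fin k, c j.succ * y ^ (j : ℕ)‖) {0}ᶜ 0 :=
          (Continuous.continuousAt (by fun_prop)).continuousWithinAt
        have hcont2 : ContinuousWithinAt (fun y : ℂ => C * ‖y‖ ^ k) {0}ᶜ 0 :=
          (Continuous.continuousAt (by fun_prop)).continuousWithinAt
        have hne : (𝓝[{0}ᶜ] (0:ℂ)).NeBot := inferInstance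
        apply le_of_tendsto_of_tendsto hcont1 hcont2
        have : ∀ᶠ y : ℂ in 𝓝[{0}ᶜ] 0, ‖y‖ < r ∧ y ≠ 0 := by
          rw [eventually_nhdsWithin_iff]
          filter_upwards [ball_mem_nhds (0:ℂ) hr] with y hy hy'
          exact ⟨by simpa using hy, hy'⟩
        filter_upwards [this] with y hy
        exact hbound y hy.1 hy.2
      · exact hbound y hy hy0
    funext j
    refine Fin.cases ?_ (fun i => ?_) j
    · exact h0
    · exact congrFun h1 i

/-- bijectivity of the division operator at `a = y^k u` -/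
lemma divOp_bijective {r : ℝ} (hr : 0 < r) (k : ℕ) (a u v : WW r)
    (ha : ∀ y ∈ DD r, ev a y = y ^ k * ev u y) (huv : ∀ y ∈ DD r, ev u y * ev v y = 1) :
    Function.Bijective (divOp r k a) := by
  constructor
  · rw [injective_iff_map_eq_zero]
    rintro ⟨q, c⟩ h
    have hev : ∀ y ∈ DD r, y ^ k * ev u y * ev q y + ∑ j : Fin k, c j * y ^ (j : ℕ) = 0 := by
      intro y hy
      have h1 := ev_divOp k a (q, c) hy
      rw [h, ha y hy] at h1
      rw [← h1]
      exact ev_zero y
    have hc : c = 0 := by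
      apply coeff_eq_zero c hr (C := ‖u‖ * ‖q‖)
      intro y hy
      have hy' : y ∈ DD r := ball_subset_DD r (by simpa using hy)
      have h1 := hev y hy'
      have h2 : ∑ j : Fin k, c j * y ^ (j : ℕ) = -(y ^ k * ev u y * ev q y) := by
        linear_combination h1
      rw [h2, norm_neg, norm_mul, norm_mul, norm_pow]
      have h3 := norm_ev_le u y
      have h4 := norm_ev_le q y
      calc ‖y‖ ^ k * ‖ev u y‖ * ‖ev q y‖ ≤ ‖y‖ ^ k * ‖u‖ * ‖q‖ := by gcongr
        _ = ‖u‖ * ‖q‖ * ‖y‖ ^ k := by ring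
    have hq : q = 0 := by
      apply WW_ext' hr
      intro y hy hy0
      have hy' : y ∈ DD r := ball_subset_DD r hy
      have h1 := hev y hy'
      rw [hc] at h1
      simp only [Pi.zero_apply, zero_mul, Finset.sum_const_zero, add_zero] at h1
      have h2 : ev u y ≠ 0 := left_ne_zero_of_mul_eq_one (huv y hy')
      have h3 : ev q y = 0 := by
        rcases mul_eq_zero.mp h1 with h | h
        · exact absurd h (mul_ne_zero (pow_ne_zero _ hy0) h2)
        · exact h
      rw [h3, ev_zero]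
    rw [hq, hc]; rfl
  · intro w
    obtain ⟨s, c, hs⟩ := exists_div_pow hr k w
    refine ⟨(mulW v s, c), ?_⟩
    apply WW_ext
    intro y hy
    rw [ev_divOp k a _ hy, ev_mulW, ha y hy, hs y hy]
    linear_combination (y ^ k * ev s y) * huv y hy

/-- joint differentiability of the evaluation -/
lemma differentiableAt_ev {r : ℝ} (w₀ : WW r) {y₀ : ℂ} (hy₀ : y₀ ∈ ball (0:ℂ) r) :
    DifferentiableAt ℂ (fun p : WW r × ℂ => ev p.1 p.2) (w₀, y₀) := by
  have hsplit : (fun p : WW r × ℂ => ev p.1 p.2) =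
      fun p => ev w₀ p.2 + ev (p.1 - w₀) p.2 := by
    funext p; rw [ev_sub]; ring
  rw [hsplit]
  apply DifferentiableAt.add
  · have h1 : DifferentiableAt ℂ (ev w₀) y₀ :=
      (differentiableOn_ev w₀).differentiableAt (isOpen_ball.mem_nhds hy₀)
    exact DifferentiableAt.comp (w₀, y₀) (f := fun p : WW r × ℂ => p.2) h1 differentiableAt_snd
  · -- the second part
    obtain ⟨δ, hδ, hball⟩ := Metric.isOpen_iff.mp isOpen_ball y₀ hy₀
    set L : WW r →L[ℂ] ℂ := LinearMap.mkContinuous
      { toFun := fun w => ev w y₀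
        map_add' := fun v w => ev_add v w y₀
        map_smul' := fun c w => ev_smul c w y₀ } 1
      (fun w => by rw [one_mul]; exact norm_ev_le w y₀) with hL
    have hLapp : ∀ w, L w = ev w y₀ := fun w => rfl
    have hbound : ∀ (w : WW r) (y : ℂ), dist y y₀ < δ / 2 →
        ‖ev w y - ev w y₀‖ ≤ (‖w‖ / (δ / 2)) * ‖y - y₀‖ := by
      intro w y hy
      have hconv : Convex ℝ (ball y₀ (δ / 2)) := convex_ball _ _
      have hsub : ∀ x ∈ ball y₀ (δ / 2), closedBall x (δ / 2) ⊆ ball (0:ℂ) r := by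
        intro x hx z hz
        apply hball
        rw [mem_ball] at hx ⊢
        rw [mem_closedBall] at hz
        calc dist z y₀ ≤ dist z x + dist x y₀ := dist_triangle _ _ _
          _ < δ := by linarith
      apply hconv.norm_image_sub_le_of_norm_deriv_le (𝕜 := ℂ) (f := ev w) (C := ‖w‖ / (δ / 2))
      · intro x hx
        apply (differentiableOn_ev w).differentiableAt
        apply isOpen_ball.mem_nhds
        exact hsub x hx (mem_closedBall_self (by positivity))
      · intro x hx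
        apply Complex.norm_deriv_le_of_forall_mem_sphere_norm_le (by positivity)
        · apply DifferentiableOn.diffContOnCl
          rw [closure_ball _ (by positivity)]
          exact (differentiableOn_ev w).mono (hsub x hx)
        · intro z _
          exact norm_ev_le w z
      · exact mem_ball_self (by positivity)
      · exact hy
    have hfd : HasFDerivAt (fun p : WW r × ℂ => ev (p.1 - w₀) p.2)
        (L.comp (ContinuousLinearMap.fst ℂ (WW r) ℂ)) (w₀, y₀) := by
      rw [hasFDerivAt_iff_isLittleO]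
      have hO : (fun p : WW r × ℂ => ev (p.1 - w₀) p.2 - ev ((w₀, y₀).1 - w₀) (w₀, y₀).2 -
          (L.comp (ContinuousLinearMap.fst ℂ (WW r) ℂ)) (p - (w₀, y₀))) =O[𝓝 (w₀, y₀)]
          fun p => ‖p - (w₀, y₀)‖ * ‖p - (w₀, y₀)‖ := by
        apply Asymptotics.IsBigO.of_bound (1 / (δ / 2))
        have hev : ∀ᶠ p : WW r × ℂ in 𝓝 (w₀, y₀), dist p.2 y₀ < δ / 2 := by
          have : Tendsto (fun p : WW r × ℂ => p.2) (𝓝 (w₀, y₀)) (𝓝 y₀) := continuousAt_snd
          exact this.eventually (ball_mem_nhds y₀ (by positivity))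
        filter_upwards [hev] with p hp
        have e1 : ev ((w₀, y₀).1 - w₀) (w₀, y₀).2 = 0 := by
          simp only [sub_self]
          exact ev_zero y₀
        have e2 : (L.comp (ContinuousLinearMap.fst ℂ (WW r) ℂ)) (p - (w₀, y₀)) = ev (p.1 - w₀) y₀ := rfl
        rw [e1, e2, sub_zero]
        have h1 := hbound (p.1 - w₀) p.2 hp
        have h2 : ‖p.1 - w₀‖ ≤ ‖p - (w₀, y₀)‖ := norm_fst_le (p - (w₀, y₀))
        have h3 : ‖p.2 - y₀‖ ≤ ‖p - (w₀, y₀)‖ := norm_snd_le (p - (w₀, y₀))
        rw [norm_mul, norm_norm]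
        calc _ ≤ (‖p.1 - w₀‖ / (δ / 2)) * ‖p.2 - y₀‖ := h1
          _ = 1 / (δ / 2) * (‖p.1 - w₀‖ * ‖p.2 - y₀‖) := by ring
          _ ≤ 1 / (δ / 2) * (‖p - (w₀, y₀)‖ * ‖p - (w₀, y₀)‖) := by gcongr
      refine hO.trans_isLittleO ?_
      have h0 : Tendsto (fun p : WW r × ℂ => ‖p - (w₀, y₀)‖) (𝓝 (w₀, y₀)) (𝓝 0) := by
        have : Tendsto (fun p : WW r × ℂ => p - (w₀, y₀)) (𝓝 (w₀, y₀)) (𝓝 0) :=
          tendsto_sub_nhds_zero_iff.mpr tendsto_id
        simpa using this.norm
      have h1 : (fun p : WW r × ℂ => ‖p - (w₀, y₀)‖) =o[𝓝 (w₀, y₀)] (fun _ => (1:ℝ)) :=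
        (Asymptotics.isLittleO_one_iff ℝ).mpr h0
      have h2 := h1.mul_isBigO (Asymptotics.isBigO_refl (fun p : WW r × ℂ => ‖p - (w₀, y₀)‖) (𝓝 (w₀, y₀)))
      simp only [one_mul] at h2
      exact h2.of_norm_right
    exact hfd.differentiableAt

end Pool.Agent.Hhelper23.CV
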