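import Pool.Agent.Hhelper23.CV.Disc

set_option autoImplicit false

open MeasureTheory Complex Metric Set Filter Topology
open scoped ENNReal NNReal Real

namespace Pool.Agent.Hhelper23.CV

variable {F : Type*} [NormedAddCommGroup F] [NormedSpace ℂ F] [FiniteDimensional ℂ F]

open Classical in
/-- the section `g(x,·)` as an element of the disc algebra -/
noncomputable def secW (r : ℝ) (g : F × ℂ → ℂ) (x : F) : WW r :=
  if h : ContinuousOn (fun y => g (x, y)) (DD r) ∧ DifferentiableOn ℂ (fun y => g (x, y)) (ball 0 r)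
  then mkW _ h.1 h.2 else 0

omit [FiniteDimensional ℂ F] in
lemma sec_cond {r : ℝ} {g : F × ℂ → ℂ} {U : Set (F × ℂ)} (hU : IsOpen U)
    (hg : DifferentiableOn ℂ g U) {x : F} (hx : ∀ y ∈ DD r, (x, y) ∈ U) :
    ContinuousOn (fun y => g (x, y)) (DD r) ∧ DifferentiableOn ℂ (fun y => g (x, y)) (ball 0 r) := by
  have h : ∀ y ∈ DD r, DifferentiableAt ℂ (fun y => g (x, y)) y := by
    intro y hy
    have h1 : DifferentiableAt ℂ g (x, y) := hg.differentiableAt (hU.mem_nhds (hx y hy))
    exact h1.comp y (f := fun y => (x, y)) (by fun_prop)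
  exact ⟨fun y hy => (h y hy).continuousAt.continuousWithinAt,
    fun y hy => (h y (ball_subset_DD r hy)).differentiableWithinAt⟩

omit [FiniteDimensional ℂ F] in
lemma ev_secW {r : ℝ} {g : F × ℂ → ℂ} {U : Set (F × ℂ)} (hU : IsOpen U)
    (hg : DifferentiableOn ℂ g U) {x : F} (hx : ∀ y ∈ DD r, (x, y) ∈ U) {y : ℂ} (hy : y ∈ DD r) :
    ev (secW r g x) y = g (x, y) := by
  have h := sec_cond hU hg hx
  unfold secW
  rw [dif_pos h, ev_mkW _ _ _ hy]

lemma norm_le_of_ev {r : ℝ} (hr : 0 ≤ r) (w : WW r) {C : ℝ} (h : ∀ y ∈ DD r, ‖ev w y‖ ≤ C) :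
    ‖w‖ ≤ C := by
  have hC : 0 ≤ C := (norm_nonneg _).trans (h 0 (by simpa using hr))
  rw [← norm_toC, ContinuousMap.norm_le _ hC]
  intro y
  have := h y.1 y.2
  simpa only [ev, ext_apply _ y.2] using this

lemma differentiableAt_secW {r : ℝ} (hr : 0 ≤ r) {g : F × ℂ → ℂ} {U : Set (F × ℂ)} (hU : IsOpen U)
    (hg : DifferentiableOn ℂ g U) {x₀ : F} (hx : ∀ y ∈ DD r, (x₀, y) ∈ U) :
    DifferentiableAt ℂ (secW r g) x₀ := by
  have hmaps : MapsTo (fun y : ℂ => (x₀, y)) (DD r) U := fun y hy => hx y hy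
  have hcont : Continuous (fun y : ℂ => (x₀, y)) := by fun_prop
  have hfc := continuousOn_fderiv hU hg
  -- sections of the derivative
  have hc : ∀ h : F, ContinuousOn (fun y => fderiv ℂ g (x₀, y) (h, 0)) (DD r) := by
    intro h
    have h1 : ContinuousOn (fun y => fderiv ℂ g (x₀, y)) (DD r) := hfc.comp hcont.continuousOn hmaps
    exact h1.clm_apply continuousOn_const
  have hd : ∀ h : F, DifferentiableOn ℂ (fun y => fderiv ℂ g (x₀, y) (h, 0)) (ball 0 r) := by
    intro h y hy
    have h1 : DifferentiableAt ℂ (fun p => fderiv ℂ g p (h, 0)) (x₀, y) :=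
      (differentiableOn_fderiv_apply hU hg (h, 0)).differentiableAt
        (hU.mem_nhds (hx y (ball_subset_DD r hy)))
    exact (h1.comp y (f := fun y => (x₀, y)) (by fun_prop)).differentiableWithinAt
  set L : F →ₗ[ℂ] WW r :=
    { toFun := fun h => mkW _ (hc h) (hd h)
      map_add' := by
        intro a b
        apply WW_ext
        intro y hy
        rw [ev_add, ev_mkW _ _ _ hy, ev_mkW _ _ _ hy, ev_mkW _ _ _ hy, ← map_add]
        congr 1
        simp
      map_smul' := by
        intro c a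
        apply WW_ext
        intro y hy
        simp only [RingHom.id_apply]
        rw [ev_smul, ev_mkW _ _ _ hy, ev_mkW _ _ _ hy, ← smul_eq_mul, ← map_smul]
        congr 1
        simp } with hL
  have hLev : ∀ (h : F) (y : ℂ), y ∈ DD r → ev (L h) y = fderiv ℂ g (x₀, y) (h, 0) := by
    intro h y hy
    exact ev_mkW _ (hc h) (hd h) hy
  have hmain : HasFDerivAt (secW r g) (LinearMap.toContinuousLinearMap L) x₀ := by
    rw [hasFDerivAt_iff_isLittleO, Asymptotics.isLittleO_iff]
    intro ε hε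
    have hev : ∀ᶠ x in 𝓝 x₀, ∀ y ∈ DD r,
        (x, y) ∈ U ∧ ‖fderiv ℂ g (x, y) - fderiv ℂ g (x₀, y)‖ ≤ ε := by
      apply (isCompact_closedBall (0:ℂ) r).eventually_forall_of_forall_eventually
      intro y hy
      have hmem : U ∈ 𝓝 (x₀, y) := hU.mem_nhds (hx y hy)
      have h1 : ContinuousAt (fderiv ℂ g) (x₀, y) := hfc.continuousAt hmem
      have h2 : ContinuousAt (fun p : F × ℂ => fderiv ℂ g (x₀, p.2)) (x₀, y) := by
        have h3 : ContinuousAt (fun p : F × ℂ => (x₀, p.2)) (x₀, y) := by fun_prop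
        exact ContinuousAt.comp (f := fun p : F × ℂ => (x₀, p.2)) (by exact h1) h3
      have h3 : Tendsto (fun p : F × ℂ => ‖fderiv ℂ g p - fderiv ℂ g (x₀, p.2)‖) (𝓝 (x₀, y)) (𝓝 0) := by
        have h4 : Tendsto (fun p : F × ℂ => fderiv ℂ g p - fderiv ℂ g (x₀, p.2)) (𝓝 (x₀, y))
            (𝓝 (fderiv ℂ g (x₀, y) - fderiv ℂ g (x₀, y))) := Filter.Tendsto.sub h1 h2
        rw [sub_self] at h4
        have h5 := h4.norm
        rwa [norm_zero] at h5
      filter_upwards [hmem, h3.eventually (gt_mem_nhds hε)] with p hp1 hp2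
      exact ⟨hp1, le_of_lt hp2⟩
    obtain ⟨δ, hδ, hball⟩ := Metric.mem_nhds_iff.mp hev
    filter_upwards [ball_mem_nhds x₀ hδ] with x hxb
    apply norm_le_of_ev hr
    intro y hy
    rw [ev_sub, ev_sub]
    have e1 : ev (secW r g x) y = g (x, y) := ev_secW hU hg (fun y hy => (hball hxb y hy).1) hy
    have e2 : ev (secW r g x₀) y = g (x₀, y) := ev_secW hU hg hx hy
    have e3 : ev ((LinearMap.toContinuousLinearMap L) (x - x₀)) y = fderiv ℂ g (x₀, y) (x - x₀, 0) :=
      hLev _ y hy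
    rw [e1, e2, e3]
    have hinl : ∀ x' : F, HasFDerivAt (fun x' : F => (x', y)) (ContinuousLinearMap.inl ℂ F ℂ) x' :=
      fun x' => hasFDerivAt_prodMk_left x' y
    have hmv := (convex_ball x₀ δ).norm_image_sub_le_of_norm_hasFDerivWithin_le' (𝕜 := ℂ)
      (f := fun x' => g (x', y)) (f' := fun x' => (fderiv ℂ g (x', y)).comp (ContinuousLinearMap.inl ℂ F ℂ))
      (φ := (fderiv ℂ g (x₀, y)).comp (ContinuousLinearMap.inl ℂ F ℂ)) (C := ε)
      (x := x₀) (y := x)
      (by
        intro x' hx'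
        have h1 : DifferentiableAt ℂ g (x', y) :=
          hg.differentiableAt (hU.mem_nhds (hball hx' y hy).1)
        exact (h1.hasFDerivAt.comp x' (hinl x')).hasFDerivWithinAt)
      (by
        intro x' hx'
        rw [← ContinuousLinearMap.sub_comp]
        have h1 := (hball hx' y hy).2
        calc _ ≤ ‖fderiv ℂ g (x', y) - fderiv ℂ g (x₀, y)‖ * ‖ContinuousLinearMap.inl ℂ F ℂ‖ :=
              ContinuousLinearMap.opNorm_comp_le _ _
          _ ≤ ε * 1 := by
            gcongr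
            exact ContinuousLinearMap.norm_inl_le_one ℂ F ℂ
          _ = ε := mul_one _)
      (mem_ball_self hδ) hxb
    simpa using hmv
  exact hmain.differentiableAt

/-- the division operator depends differentiably (indeed affinely) on its symbol -/
lemma differentiable_divOp (r : ℝ) (k : ℕ) : Differentiable ℂ (divOp r k) := by
  have h : divOp r k = fun a => (mulL r a).comp (ContinuousLinearMap.fst ℂ (WW r) (Fin k → ℂ)) +
      (polW r k).comp (ContinuousLinearMap.snd ℂ (WW r) (Fin k → ℂ)) := by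
    funext a
    rfl
  rw [h]
  have h0 : Differentiable ℂ fun a : WW r => mulL r a := (mulL r).differentiable
  have h1 : Differentiable ℂ fun a : WW r =>
      (mulL r a).comp (ContinuousLinearMap.fst ℂ (WW r) (Fin k → ℂ)) :=
    Differentiable.clm_comp h0 (differentiable_const _)
  exact h1.add (differentiable_const _)

/-- Weierstrass division theorem for germs of holomorphic functions -/
theorem weierstrass_division {G : F × ℂ → ℂ}
    (hG : ∀ᶠ p in 𝓝 (0 : F × ℂ), DifferentiableAt ℂ G p)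
    (hne : ¬ ∀ᶠ y in 𝓝 (0:ℂ), G (0, y) = 0) :
    ∃ k : ℕ, ∀ g : F × ℂ → ℂ, (∀ᶠ p in 𝓝 (0 : F × ℂ), DifferentiableAt ℂ g p) →
      ∃ (q : F × ℂ → ℂ) (c : F → (Fin k → ℂ)),
        (∀ᶠ p in 𝓝 (0 : F × ℂ), DifferentiableAt ℂ q p) ∧
        (∀ᶠ x in 𝓝 (0 : F), DifferentiableAt ℂ c x) ∧
        ∀ᶠ p in 𝓝 (0 : F × ℂ), g p = q p * G p + ∑ j : Fin k, c p.1 j * p.2 ^ (j : ℕ) := by
  -- order of `G(0,·)`
  have hι : Continuous (fun y : ℂ => ((0 : F), y)) := by fun_prop
  have hφd : ∀ᶠ y in 𝓝 (0:ℂ), DifferentiableAt ℂ (fun y => G (0, y)) y := by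
    have h0 : Tendsto (fun y : ℂ => ((0 : F), y)) (𝓝 0) (𝓝 (0 : F × ℂ)) := hι.tendsto 0
    filter_upwards [h0.eventually hG] with y hy
    exact DifferentiableAt.comp y (f := fun y : ℂ => ((0 : F), y)) hy (by fun_prop)
  have han : AnalyticAt ℂ (fun y => G (0, y)) 0 :=
    Complex.analyticAt_iff_eventually_differentiableAt.mpr hφd
  obtain ⟨k, u, hua, hu0, hueq⟩ := han.exists_eventuallyEq_pow_smul_nonzero_iff.mpr hne
  refine ⟨k, fun g hg => ?_⟩
  -- the good open set
  obtain ⟨U, hUsub, hUo, h0U⟩ := _root_.eventually_nhds_iff.mp (hG.and hg)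
  have hGd : DifferentiableOn ℂ G U := fun p hp => (hUsub p hp).1.differentiableWithinAt
  have hgd : DifferentiableOn ℂ g U := fun p hp => (hUsub p hp).2.differentiableWithinAt
  -- choose the radius
  have hu_diff : ∀ᶠ y in 𝓝 (0:ℂ), DifferentiableAt ℂ u y :=
    Complex.analyticAt_iff_eventually_differentiableAt.mp hua
  have hu_ne : ∀ᶠ y in 𝓝 (0:ℂ), u y ≠ 0 := hua.continuousAt.eventually_ne hu0
  have hU0 : ∀ᶠ y in 𝓝 (0:ℂ), ((0 : F), y) ∈ U := by
    have h0 : Tendsto (fun y : ℂ => ((0 : F), y)) (𝓝 0) (𝓝 (0 : F × ℂ)) := hι.tendsto 0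
    exact h0.eventually (hUo.mem_nhds h0U)
  obtain ⟨R, hR, hball⟩ := Metric.mem_nhds_iff.mp (((hu_diff.and hu_ne).and hU0).and hueq)
  set r : ℝ := R / 2 with hr
  have hrpos : 0 < r := by positivity
  have hgood : ∀ y ∈ DD r, ((DifferentiableAt ℂ u y ∧ u y ≠ 0) ∧ ((0 : F), y) ∈ U) ∧
      G (0, y) = (y - 0) ^ k • u y := by
    intro y hy
    apply hball
    rw [mem_closedBall] at hy
    rw [mem_ball]
    linarith
  have hx0 : ∀ y ∈ DD r, ((0 : F), y) ∈ U := fun y hy => (hgood y hy).1.2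
  have huc : ContinuousOn u (DD r) := fun y hy => (hgood y hy).1.1.1.continuousAt.continuousWithinAt
  have hud : DifferentiableOn ℂ u (ball 0 r) := fun y hy =>
    (hgood y (ball_subset_DD r hy)).1.1.1.differentiableWithinAt
  have hvc : ContinuousOn (fun y => (u y)⁻¹) (DD r) := huc.inv₀ fun y hy => (hgood y hy).1.1.2
  have hvd : DifferentiableOn ℂ (fun y => (u y)⁻¹) (ball 0 r) :=
    DifferentiableOn.inv hud fun y hy => (hgood y (ball_subset_DD r hy)).1.1.2
  have hbij : Function.Bijective (divOp r k (secW r G 0)) := by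
    apply divOp_bijective hrpos k (secW r G 0) (mkW u huc hud) (mkW _ hvc hvd)
    · intro y hy
      rw [ev_secW hUo hGd hx0 hy, ev_mkW _ _ _ hy, (hgood y hy).2, sub_zero, smul_eq_mul]
    · intro y hy
      rw [ev_mkW _ _ _ hy, ev_mkW _ _ _ hy]
      exact mul_inv_cancel₀ (hgood y hy).1.1.2
  set e : (WW r × (Fin k → ℂ)) ≃L[ℂ] WW r :=
    ContinuousLinearEquiv.ofBijective (divOp r k (secW r G 0))
      (LinearMap.ker_eq_bot.mpr hbij.1) (LinearMap.range_eq_top.mpr hbij.2) with he
  have hecoe : (e : (WW r × (Fin k → ℂ)) →L[ℂ] WW r) = divOp r k (secW r G 0) :=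
    ContinuousLinearMap.ext fun p => rfl
  -- nearby points
  have hnearU : ∀ᶠ x in 𝓝 (0 : F), ∀ y ∈ DD r, (x, y) ∈ U := by
    apply (isCompact_closedBall (0:ℂ) r).eventually_forall_of_forall_eventually
    intro y hy
    exact hUo.mem_nhds (hx0 y hy)
  have hT0 : ContinuousAt (fun x => divOp r k (secW r G x)) (0 : F) :=
    ((differentiable_divOp r k).continuous.continuousAt).comp
      (differentiableAt_secW hrpos.le hUo hGd hx0).continuousAt
  have hinv : ∀ᶠ x in 𝓝 (0 : F), (divOp r k (secW r G x)).IsInvertible := by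
    have h1 := ContinuousLinearEquiv.nhds e
    rw [hecoe] at h1
    filter_upwards [hT0.eventually h1] with x hx
    obtain ⟨e', he'⟩ := hx
    exact ⟨e', he'⟩
  set Q : F → WW r × (Fin k → ℂ) := fun x => (divOp r k (secW r G x)).inverse (secW r g x) with hQ
  have hQd : ∀ᶠ x in 𝓝 (0 : F), DifferentiableAt ℂ Q x := by
    filter_upwards [hnearU, hinv] with x hxU hxinv
    apply DifferentiableAt.clm_apply
    · have h1 : DifferentiableAt ℂ ContinuousLinearMap.inverse (divOp r k (secW r G x)) :=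
        (hxinv.contDiffAt_map_inverse (n := 1)).differentiableAt one_ne_zero
      have hA : DifferentiableAt ℂ (divOp r k) (secW r G x) := differentiable_divOp r k _
      have hB : DifferentiableAt ℂ (secW r G) x := differentiableAt_secW hrpos.le hUo hGd hxU
      have h2 : DifferentiableAt ℂ (fun x => divOp r k (secW r G x)) x :=
        DifferentiableAt.comp x hA hB
      exact h1.comp x h2
    · exact differentiableAt_secW hrpos.le hUo hgd hxU
  refine ⟨fun p => ev (Q p.1).1 p.2, fun x => (Q x).2, ?_, ?_, ?_⟩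
  · have h1 : ∀ᶠ p in 𝓝 (0 : F × ℂ), DifferentiableAt ℂ Q p.1 := by
      have : Tendsto (fun p : F × ℂ => p.1) (𝓝 0) (𝓝 0) := continuous_fst.tendsto 0
      exact this.eventually hQd
    have h2 : ∀ᶠ p in 𝓝 (0 : F × ℂ), p.2 ∈ ball (0:ℂ) r := by
      have : Tendsto (fun p : F × ℂ => p.2) (𝓝 0) (𝓝 0) := continuous_snd.tendsto 0
      exact this.eventually (ball_mem_nhds _ hrpos)
    filter_upwards [h1, h2] with p hp1 hp2
    have h3 := differentiableAt_ev (Q p.1).1 hp2
    have h4 : DifferentiableAt ℂ (fun p : F × ℂ => ((Q p.1).1, p.2)) p := by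
      apply DifferentiableAt.prodMk
      · have h5 : DifferentiableAt ℂ (fun p : F × ℂ => Q p.1) p :=
          DifferentiableAt.comp p hp1 differentiableAt_fst
        exact h5.fst
      · exact differentiableAt_snd
    exact DifferentiableAt.comp p (f := fun p : F × ℂ => ((Q p.1).1, p.2)) h3 h4
  · filter_upwards [hQd] with x hx
    exact hx.snd
  · have h1 : ∀ᶠ p in 𝓝 (0 : F × ℂ), (∀ y ∈ DD r, (p.1, y) ∈ U) ∧
        (divOp r k (secW r G p.1)).IsInvertible := by
      have : Tendsto (fun p : F × ℂ => p.1) (𝓝 0) (𝓝 0) := continuous_fst.tendsto 0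
      exact this.eventually (hnearU.and hinv)
    have h2 : ∀ᶠ p in 𝓝 (0 : F × ℂ), p.2 ∈ ball (0:ℂ) r := by
      have : Tendsto (fun p : F × ℂ => p.2) (𝓝 0) (𝓝 0) := continuous_snd.tendsto 0
      exact this.eventually (ball_mem_nhds _ hrpos)
    filter_upwards [h1, h2] with p hp1 hp2
    have hy : p.2 ∈ DD r := ball_subset_DD r hp2
    have h3 : divOp r k (secW r G p.1) (Q p.1) = secW r g p.1 := by
      rw [hQ]
      obtain ⟨e', he'⟩ := hp1.2
      simp only
      rw [← he', ContinuousLinearMap.inverse_equiv]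
      simp
    have h4 := ev_divOp k (secW r G p.1) (Q p.1) hy
    rw [h3, ev_secW hUo hgd hp1.1 hy, ev_secW hUo hGd hp1.1 hy] at h4
    rw [h4]
    ring

end Pool.Agent.Hhelper23.CV
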