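import Mathlib

set_option autoImplicit false

open MeasureTheory Complex Metric Set Filter Topology
open scoped ENNReal NNReal Real

namespace Pool.Agent.Hhelper23.CV

variable {F : Type*} [NormedAddCommGroup F] [NormedSpace ℂ F]

lemma hasDerivAt_line (y u : F) (l : ℂ) : HasDerivAt (fun l : ℂ => y + l • u) u l := by
  have := ((hasDerivAt_id l).smul_const u).const_add y
  simpa using this

/-- directional derivative as a one variable derivative -/
lemma deriv_line {f : F → ℂ} {y : F} (u : F) (hf : DifferentiableAt ℂ f y) :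
    deriv (fun l : ℂ => f (y + l • u)) 0 = fderiv ℂ f y u := by
  have h1 := hasDerivAt_line y u 0
  have h2 : HasFDerivAt f (fderiv ℂ f y) (y + (0:ℂ) • u) := by
    rw [zero_smul, add_zero]; exact hf.hasFDerivAt
  have h3 := h2.comp_hasDerivAt (0:ℂ) h1
  exact h3.deriv

/-- Cauchy bound for the Fréchet derivative -/
lemma norm_fderiv_le_of_bound {f : F → ℂ} {y : F} {s M : ℝ} (hs : 0 < s) (hM : 0 ≤ M)
    (hd : ∀ x, ‖x - y‖ ≤ s → DifferentiableAt ℂ f x) (hb : ∀ x, ‖x - y‖ ≤ s → ‖f x‖ ≤ M) :
    ‖fderiv ℂ f y‖ ≤ M / s := by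
  have key : ∀ u : F, ‖u‖ = 1 → ‖fderiv ℂ f y u‖ ≤ M / s := by
    intro u hu
    have hmem : ∀ l : ℂ, ‖l‖ ≤ s → ‖(y + l • u) - y‖ ≤ s := by
      intro l hl
      rw [add_sub_cancel_left, norm_smul, hu, mul_one]; exact hl
    have hφd : DifferentiableOn ℂ (fun l : ℂ => f (y + l • u)) (closedBall 0 s) := by
      intro l hl
      rw [mem_closedBall_zero_iff] at hl
      have h1 := hd _ (hmem l hl)
      exact (h1.comp l (hasDerivAt_line y u l).differentiableAt).differentiableWithinAt
    have hcl : DiffContOnCl ℂ (fun l : ℂ => f (y + l • u)) (ball 0 s) := by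
      apply DifferentiableOn.diffContOnCl
      rw [closure_ball _ hs.ne']
      exact hφd
    have hbound : ∀ l ∈ sphere (0:ℂ) s, ‖f (y + l • u)‖ ≤ M := by
      intro l hl
      have hln : ‖l‖ = s := by simpa using hl
      exact hb _ (hmem l hln.le)
    have hc := Complex.norm_deriv_le_of_forall_mem_sphere_norm_le hs hcl hbound
    rwa [deriv_line u (hd y (by simpa using hs.le))] at hc
  refine ContinuousLinearMap.opNorm_le_bound _ (by positivity) fun u => ?_
  by_cases hu : u = 0
  · simp [hu]
  have hun : ‖u‖ ≠ 0 := norm_ne_zero_iff.mpr hu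
  have h1 := key (((‖u‖⁻¹ : ℝ) : ℂ) • u) (by
    rw [norm_smul, Complex.norm_real, norm_inv, norm_norm, inv_mul_cancel₀ hun])
  rw [map_smul, norm_smul, Complex.norm_real, norm_inv, norm_norm, inv_mul_le_iff₀ (by positivity)] at h1
  linarith

/-- the kernel of the Cauchy formula for the first derivative -/
noncomputable def kap (θ : ℝ) : ℂ := deriv (circleMap 0 1) θ * ((circleMap 0 1 θ) ^ 2)⁻¹

lemma continuous_kap : Continuous kap := by
  have h1 := continuous_circleMap 0 1
  unfold kap
  simp only [deriv_circleMap]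
  apply Continuous.mul (by fun_prop)
  apply Continuous.inv₀ (by fun_prop)
  intro θ
  apply pow_ne_zero
  exact circleMap_ne_center one_ne_zero

lemma norm_kap (θ : ℝ) : ‖kap θ‖ = 1 := by
  simp [kap, deriv_circleMap]

lemma fderiv_apply_eq_integral {f : F → ℂ} {z v : F} 
    (hd : ∀ x, ‖x - z‖ ≤ ‖v‖ → DifferentiableAt ℂ f x) :
    fderiv ℂ f z v =
      (2 * π * I : ℂ)⁻¹ * ∫ θ in (0:ℝ)..(2 * π), kap θ * f (z + circleMap 0 1 θ • v) := by
  have hφd : DifferentiableOn ℂ (fun l : ℂ => f (z + l • v)) (closedBall 0 1) := by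
    intro l hl
    rw [mem_closedBall_zero_iff] at hl
    have h1 := hd (z + l • v) (by
      rw [add_sub_cancel_left, norm_smul]
      exact mul_le_of_le_one_left (norm_nonneg _) hl)
    exact (h1.comp l (hasDerivAt_line z v l).differentiableAt).differentiableWithinAt
  have h1 := hφd.deriv_eq_smul_circleIntegral one_pos (c := 0)
  have h2 : deriv (fun l : ℂ => f (z + l • v)) 0 =
      (2 * π * I : ℂ)⁻¹ * ∮ l in C(0, 1), (1 / (l - 0) ^ 2) • (f (z + l • v)) := by
    rw [h1, smul_eq_mul, ← mul_assoc, inv_mul_cancel₀ two_pi_I_ne_zero, one_mul]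
  rw [← deriv_line v (hd z (by simp)), h2]
  congr 1
  unfold circleIntegral
  congr 1
  funext θ
  simp only [kap, sub_zero, smul_eq_mul]
  ring

/-- a holomorphic function of several variables has holomorphic directional derivatives -/
lemma differentiableOn_fderiv_apply [FiniteDimensional ℂ F] {f : F → ℂ} {U : Set F}
    (hU : IsOpen U) (hf : DifferentiableOn ℂ f U) (v : F) :
    DifferentiableOn ℂ (fun z => fderiv ℂ f z v) U := by
  intro z₀ hz₀
  apply DifferentiableAt.differentiableWithinAt
  -- a ball where `f` is bounded and differentiable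
  have hfc : ContinuousAt f z₀ := (hf.differentiableAt (hU.mem_nhds hz₀)).continuousAt
  have hbd : ∀ᶠ x in 𝓝 z₀, ‖f x‖ < ‖f z₀‖ + 1 :=
    hfc.norm.eventually (gt_mem_nhds (lt_add_one _))
  obtain ⟨R, hR, hball⟩ := Metric.mem_nhds_iff.mp (Filter.inter_mem (hU.mem_nhds hz₀) hbd)
  set s : ℝ := R / 3 with hs
  have hspos : 0 < s := by positivity
  set M : ℝ := ‖f z₀‖ + 1 with hM
  have hM0 : 0 ≤ M := by positivity
  have hdiff : ∀ x, dist x z₀ < 3 * s → DifferentiableAt ℂ f x := by
    intro x hx
    have : x ∈ ball z₀ R := by rw [mem_ball]; rw [hs] at hx; linarith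
    exact hf.differentiableAt (hU.mem_nhds (hball this).1)
  have hbound : ∀ x, dist x z₀ < 3 * s → ‖f x‖ ≤ M := by
    intro x hx
    have : x ∈ ball z₀ R := by rw [mem_ball]; rw [hs] at hx; linarith
    exact le_of_lt (hball this).2
  -- reduce to small `v`
  suffices hsmall : ∀ v : F, ‖v‖ ≤ s → DifferentiableAt ℂ (fun z => fderiv ℂ f z v) z₀ by
    have hc : (0:ℝ) < ‖v‖ + 1 := by positivity
    have hv' : ‖((s / (‖v‖ + 1) : ℝ) : ℂ) • v‖ ≤ s := by
      rw [norm_smul, Complex.norm_real, Real.norm_eq_abs, abs_of_pos (by positivity)]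
      rw [div_mul_eq_mul_div, div_le_iff₀ hc]
      nlinarith [norm_nonneg v]
    have h1 := (hsmall _ hv').const_mul (((‖v‖ + 1) / s : ℝ) : ℂ)
    have h2 : (fun z => (((‖v‖ + 1) / s : ℝ) : ℂ) *
        fderiv ℂ f z (((s / (‖v‖ + 1) : ℝ) : ℂ) • v)) = fun z => fderiv ℂ f z v := by
      funext z
      rw [map_smul, smul_eq_mul, ← mul_assoc, ← Complex.ofReal_mul]
      have : (‖v‖ + 1) / s * (s / (‖v‖ + 1)) = 1 := by field_simp
      rw [this]; simp
    rwa [h2] at h1
  intro v hv
  have heq : (fun z => (2 * π * I : ℂ)⁻¹ *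
      ∫ θ in (0:ℝ)..(2 * π), kap θ * f (z + circleMap 0 1 θ • v)) =ᶠ[𝓝 z₀]
      fun z => fderiv ℂ f z v := by
    filter_upwards [ball_mem_nhds z₀ hspos] with z hz
    rw [fderiv_apply_eq_integral]
    intro x hx
    apply hdiff
    rw [mem_ball] at hz
    calc dist x z₀ ≤ dist x z + dist z z₀ := dist_triangle _ _ _
      _ < 3 * s := by rw [dist_eq_norm]; linarith
  refine DifferentiableAt.congr_of_eventuallyEq ?_ heq.symm
  apply DifferentiableAt.const_mul
  borelize F
  have hprop : ProperSpace F := FiniteDimensional.proper ℂ F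
  have hpp : ProperSpace (F →L[ℂ] ℂ) := FiniteDimensional.proper ℂ _
  have hcirc : ∀ θ : ℝ, ‖circleMap 0 1 θ • v‖ ≤ s := by
    intro θ
    rw [norm_smul]; simpa using hv
  have hin : ∀ z ∈ ball z₀ s, ∀ θ : ℝ, dist (z + circleMap 0 1 θ • v) z₀ < 2 * s := by
    intro z hz θ
    rw [mem_ball] at hz
    calc dist (z + circleMap 0 1 θ • v) z₀ ≤ dist (z + circleMap 0 1 θ • v) z + dist z z₀ :=
          dist_triangle _ _ _
      _ < 2 * s := by
        have := hcirc θ
        rw [dist_eq_norm, add_sub_cancel_left]; linarith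
  have hcontF : ∀ z ∈ ball z₀ s, Continuous fun θ : ℝ => kap θ * f (z + circleMap 0 1 θ • v) := by
    intro z hz
    apply continuous_kap.mul
    rw [continuous_iff_continuousAt]
    intro θ
    have h1 : ContinuousAt f (z + circleMap 0 1 θ • v) :=
      (hdiff _ (by linarith [hin z hz θ])).continuousAt
    have h2 : ContinuousAt (fun θ : ℝ => z + circleMap 0 1 θ • v) θ := by
      have := continuous_circleMap 0 1
      fun_prop
    exact ContinuousAt.comp (f := fun θ : ℝ => z + circleMap 0 1 θ • v) h1 h2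
  have hmain := intervalIntegral.hasFDerivAt_integral_of_dominated_loc_of_lip (𝕜 := ℂ)
    (μ := volume) (a := 0) (b := 2 * π) (s := ball z₀ s) (bound := fun _ => M / s)
    (F := fun z θ => kap θ * f (z + circleMap 0 1 θ • v))
    (F' := fun θ => kap θ • fderiv ℂ f (z₀ + circleMap 0 1 θ • v)) (x₀ := z₀)
    (ball_mem_nhds z₀ hspos) ?_ ?_ ?_ ?_ ?_ ?_
  · exact hmain.2.differentiableAt
  · filter_upwards [ball_mem_nhds z₀ hspos] with z hz
    exact (hcontF z hz).aestronglyMeasurable
  · exact (hcontF z₀ (mem_ball_self hspos)).intervalIntegrable _ _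
  · apply Measurable.aestronglyMeasurable
    apply Measurable.smul continuous_kap.measurable
    apply (measurable_fderiv ℂ f).comp
    apply Continuous.measurable
    have := continuous_circleMap 0 1
    fun_prop
  · refine Eventually.of_forall fun θ _ => ?_
    rw [Real.nnabs_of_nonneg (by positivity)]
    apply (convex_ball z₀ s).lipschitzOnWith_of_nnnorm_fderiv_le (𝕜 := ℂ)
    · intro z hz
      apply DifferentiableAt.const_mul
      apply DifferentiableAt.comp
      · exact hdiff _ (by linarith [hin z hz θ])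
      · fun_prop
    · intro z hz
      have hdz := hdiff _ (by linarith [hin z hz θ])
      have h1 : HasFDerivAt (fun z => kap θ * f (z + circleMap 0 1 θ • v))
          (kap θ • fderiv ℂ f (z + circleMap 0 1 θ • v)) z := by
        have h3 : HasFDerivAt (fun z : F => z + circleMap 0 1 θ • v)
            (ContinuousLinearMap.id ℂ _) z := (hasFDerivAt_id z).add_const _
        have h4 := (hdz.hasFDerivAt.comp z h3).const_mul (kap θ)
        simpa [Function.comp_def] using h4
      rw [h1.fderiv]
      rw [← NNReal.coe_le_coe, coe_nnnorm, norm_smul, norm_kap, one_mul,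
        Real.coe_toNNReal _ (by positivity)]
      apply norm_fderiv_le_of_bound hspos hM0
      · intro x hx
        apply hdiff
        calc dist x z₀ ≤ dist x (z + circleMap 0 1 θ • v) + dist (z + circleMap 0 1 θ • v) z₀ :=
              dist_triangle _ _ _
          _ < 3 * s := by
            rw [dist_eq_norm]; linarith [hin z hz θ]
      · intro x hx
        apply hbound
        calc dist x z₀ ≤ dist x (z + circleMap 0 1 θ • v) + dist (z + circleMap 0 1 θ • v) z₀ :=
              dist_triangle _ _ _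
          _ < 3 * s := by
            rw [dist_eq_norm]; linarith [hin z hz θ]
  · exact intervalIntegrable_const
  · refine Eventually.of_forall fun θ _ => ?_
    have hdz := hdiff _ (by linarith [hin z₀ (mem_ball_self hspos) θ])
    have h3 : HasFDerivAt (fun z : F => z + circleMap 0 1 θ • v)
        (ContinuousLinearMap.id ℂ _) z₀ := (hasFDerivAt_id z₀).add_const _
    have h4 := (hdz.hasFDerivAt.comp z₀ h3).const_mul (kap θ)
    simpa [Function.comp_def] using h4

/-- the Fréchet derivative of a holomorphic function is continuous -/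
lemma continuousOn_fderiv [FiniteDimensional ℂ F] {f : F → ℂ} {U : Set F}
    (hU : IsOpen U) (hf : DifferentiableOn ℂ f U) : ContinuousOn (fderiv ℂ f) U := by
  have h : ∀ v, ContinuousOn (fun z => fderiv ℂ f z v) U := fun v =>
    (differentiableOn_fderiv_apply hU hf v).continuousOn
  exact continuousOn_clm_apply.mpr h

end Pool.Agent.Hhelper23.CV
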