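import Pool.Agent.Hhelper23.CV.UL
import Pool.Agent.Hhelper23.CV.Div
import Pool.Agent.Hhelper23.CV.DerExt

set_option autoImplicit false
set_option linter.unusedSectionVars false

open Filter Topology Metric

namespace Pool.Agent.Hhelper23.CV

/-- holomorphic near `0` -/
def Hol {E : Type} [NormedAddCommGroup E] [NormedSpace ℂ E] (g : E → ℂ) : Prop :=
  ∀ᶠ x in 𝓝 (0:E), DifferentiableAt ℂ g x

section
variable {E : Type} [NormedAddCommGroup E] [NormedSpace ℂ E]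

lemma Hol.add {f g : E → ℂ} (hf : Hol f) (hg : Hol g) : Hol (f + g) := by
  filter_upwards [hf, hg] with x h1 h2 using h1.add h2

lemma Hol.mul {f g : E → ℂ} (hf : Hol f) (hg : Hol g) : Hol (f * g) := by
  filter_upwards [hf, hg] with x h1 h2 using h1.mul h2

lemma Hol.const (c : ℂ) : Hol (fun _ : E => c) :=
  Eventually.of_forall fun _ => differentiableAt_const c

lemma Hol.sub {f g : E → ℂ} (hf : Hol f) (hg : Hol g) : Hol (f - g) := by
  filter_upwards [hf, hg] with x h1 h2 using h1.sub h2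

lemma Hol.pow {f : E → ℂ} (hf : Hol f) (n : ℕ) : Hol (f ^ n) := by
  filter_upwards [hf] with x h1 using h1.pow n

lemma Hol.sum {κ : Type} (s : Finset κ) {f : κ → E → ℂ} (hf : ∀ i ∈ s, Hol (f i)) :
    Hol (∑ i ∈ s, f i) := by
  classical
  induction s using Finset.induction_on with
  | empty => exact Hol.const (E := E) 0
  | insert a s ha ih =>
    rw [Finset.sum_insert ha]
    exact (hf a (Finset.mem_insert_self _ _)).add
      (ih fun i hi => hf i (Finset.mem_insert_of_mem hi))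

/-- the algebra of functions holomorphic near 0 -/
def HolA (E : Type) [NormedAddCommGroup E] [NormedSpace ℂ E] : Subalgebra ℂ (E → ℂ) where
  carrier := {g | Hol g}
  mul_mem' := Hol.mul
  add_mem' := Hol.add
  algebraMap_mem' c := Hol.const c

lemma Hol.comp_clm {E' : Type} [NormedAddCommGroup E'] [NormedSpace ℂ E'] {g : E' → ℂ}
    (hg : Hol g) (T : E →L[ℂ] E') : Hol (fun x => g (T x)) := by
  have h : Tendsto T (𝓝 (0:E)) (𝓝 (0:E')) := by
    have := T.continuous.tendsto 0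
    rwa [map_zero] at this
  filter_upwards [h.eventually hg] with x hx
  exact hx.comp x T.differentiableAt

lemma Hol.pderiv [FiniteDimensional ℂ E] {g : E → ℂ} (hg : Hol g) (v : E) :
    Hol (fun x => fderiv ℂ g x v) := by
  obtain ⟨U, hU, hUo, h0⟩ := _root_.eventually_nhds_iff.1 hg
  have h1 : DifferentiableOn ℂ g U := fun x hx => (hU x hx).differentiableWithinAt
  have h2 := differentiableOn_fderiv_apply hUo h1 v
  filter_upwards [hUo.mem_nhds h0] with x hx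
  exact h2.differentiableAt (hUo.mem_nhds hx)

variable {ι : Type} (𝒰 : Ultrafilter ι)

/-- derivative along `z` -/
noncomputable def Dz (z : ι → E) (v : E) (g : E → ℂ) : UL 𝒰 :=
  mkU 𝒰 (fun j => fderiv ℂ g (z j) v)

variable {𝒰}

lemma Dz_eq_piz (z : ι → E) (v : E) (g : E → ℂ) :
    Dz 𝒰 z v g = piz 𝒰 z (fun x => fderiv ℂ g x v) := rfl

lemma Dz_add {z : ι → E} (hz : Tendsto z 𝒰 (𝓝 0)) (v : E) {f g : E → ℂ} (hf : Hol f) (hg : Hol g) :
    Dz 𝒰 z v (f + g) = Dz 𝒰 z v f + Dz 𝒰 z v g := by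
  rw [Dz, Dz, Dz, ← map_add, mkU_eq_iff]
  filter_upwards [hz.eventually hf, hz.eventually hg] with j h1 h2
  rw [fderiv_add h1 h2]
  rfl

lemma Dz_const (z : ι → E) (v : E) (c : ℂ) : Dz 𝒰 z v (fun _ => c) = 0 := by
  rw [Dz, mkU_eq_zero_iff]
  refine Eventually.of_forall fun j => ?_
  rw [fderiv_fun_const]
  simp

lemma Dz_mul {z : ι → E} (hz : Tendsto z 𝒰 (𝓝 0)) (v : E) {f g : E → ℂ} (hf : Hol f) (hg : Hol g) :
    Dz 𝒰 z v (f * g) = piz 𝒰 z f * Dz 𝒰 z v g + piz 𝒰 z g * Dz 𝒰 z v f := by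
  rw [Dz, Dz, Dz, piz_apply, piz_apply, ← map_mul, ← map_mul, ← map_add, mkU_eq_iff]
  filter_upwards [hz.eventually hf, hz.eventually hg] with j h1 h2
  rw [fderiv_mul h1 h2]
  simp [smul_eq_mul]

lemma Dz_congr {z : ι → E} (hz : Tendsto z 𝒰 (𝓝 0)) (v : E) {f g : E → ℂ} (h : f =ᶠ[𝓝 0] g) :
    Dz 𝒰 z v f = Dz 𝒰 z v g := by
  rw [Dz, Dz, mkU_eq_iff]
  filter_upwards [hz.eventually h.eventuallyEq_nhds] with j h1
  rw [h1.fderiv_eq]

lemma piz_congr {z : ι → E} (hz : Tendsto z 𝒰 (𝓝 0)) {f g : E → ℂ} (h : f =ᶠ[𝓝 0] g) :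
    piz 𝒰 z f = piz 𝒰 z g := by
  rw [piz_apply, piz_apply, mkU_eq_iff]
  exact hz.eventually h

lemma Dz_comp {E' : Type} [NormedAddCommGroup E'] [NormedSpace ℂ E'] {z : ι → E}
    (hz : Tendsto z 𝒰 (𝓝 0)) (T : E →L[ℂ] E') (v : E) {g : E' → ℂ} (hg : Hol g) :
    Dz 𝒰 z v (fun x => g (T x)) = Dz 𝒰 (fun j => T (z j)) (T v) g := by
  rw [Dz, Dz, mkU_eq_iff]
  have h : Tendsto (fun j => T (z j)) 𝒰 (𝓝 (0:E')) := by
    have := (T.continuous.tendsto 0).comp hz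
    rwa [map_zero] at this
  filter_upwards [h.eventually hg] with j h1
  have : fderiv ℂ (fun x => g (T x)) (z j) = (fderiv ℂ g (T (z j))).comp T :=
    (h1.hasFDerivAt.comp (z j) T.hasFDerivAt).fderiv
  rw [this]
  rfl

variable (𝒰)

/-- the subalgebra of values of holomorphic germs along `z` -/
noncomputable def Az (z : ι → E) : Subalgebra ℂ (UL 𝒰) := (HolA E).map (piz 𝒰 z)

variable {𝒰}

lemma mem_Az {z : ι → E} {a : UL 𝒰} : a ∈ Az 𝒰 z ↔ ∃ g : E → ℂ, Hol g ∧ piz 𝒰 z g = a := by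
  rw [Az, Subalgebra.mem_map]
  rfl

lemma piz_mem_Az {z : ι → E} {g : E → ℂ} (hg : Hol g) : piz 𝒰 z g ∈ Az 𝒰 z := mem_Az.2 ⟨g, hg, rfl⟩

/-- regular derivations -/
def Reg (z : ι → E) (δ : Derivation ℂ (UL 𝒰) (UL 𝒰)) : Prop :=
  ∃ (κ : Type) (_ : Fintype κ) (s : κ → UL 𝒰) (v : κ → E),
    ∀ g : E → ℂ, Hol g → δ (piz 𝒰 z g) = ∑ i, s i * Dz 𝒰 z (v i) g

lemma Reg.map {E' : Type} [NormedAddCommGroup E'] [NormedSpace ℂ E'] {z : ι → E}
    (hz : Tendsto z 𝒰 (𝓝 0)) (T : E →L[ℂ] E') {δ : Derivation ℂ (UL 𝒰) (UL 𝒰)} (h : Reg z δ) :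
    Reg (fun j => T (z j)) δ := by
  obtain ⟨κ, _, s, v, hv⟩ := h
  refine ⟨κ, inferInstance, s, fun i => T (v i), fun g hg => ?_⟩
  have h1 : piz 𝒰 (fun j => T (z j)) g = piz 𝒰 z (fun x => g (T x)) := rfl
  rw [h1, hv _ (hg.comp_clm T)]
  refine Finset.sum_congr rfl fun i _ => ?_
  rw [Dz_comp hz T _ hg]

lemma Az_map_le {E' : Type} [NormedAddCommGroup E'] [NormedSpace ℂ E'] (z : ι → E) (T : E →L[ℂ] E') :
    Az 𝒰 (fun j => T (z j)) ≤ Az 𝒰 z := by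
  intro a ha
  obtain ⟨g, hg, rfl⟩ := mem_Az.1 ha
  exact mem_Az.2 ⟨fun x => g (T x), hg.comp_clm T, rfl⟩

end

end Pool.Agent.Hhelper23.CV
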