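import Mathlib

set_option autoImplicit false

open Filter Topology

namespace Pool.Agent.Hhelper23.CV

variable {ι : Type} (𝒰 : Ultrafilter ι)

/-- The ultrapower of `ℂ`. -/
def UL : Type := (𝒰 : Filter ι).Germ ℂ

noncomputable instance instFieldUL : Field (UL 𝒰) := inferInstanceAs (Field ((𝒰 : Filter ι).Germ ℂ))

/-- The class of a sequence. -/
noncomputable def mkU : (ι → ℂ) →+* UL 𝒰 := Filter.Germ.coeRingHom (𝒰 : Filter ι)

variable {𝒰}

lemma mkU_eq_iff {f g : ι → ℂ} : mkU 𝒰 f = mkU 𝒰 g ↔ ∀ᶠ j in (𝒰 : Filter ι), f j = g j := by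
  show (Filter.Germ.ofFun f : (𝒰 : Filter ι).Germ ℂ) = Filter.Germ.ofFun g ↔ _
  exact Filter.Germ.coe_eq

lemma mkU_eq_zero_iff {f : ι → ℂ} : mkU 𝒰 f = 0 ↔ ∀ᶠ j in (𝒰 : Filter ι), f j = 0 := by
  rw [← map_zero (mkU 𝒰), mkU_eq_iff]
  rfl

noncomputable instance instAlgebraUL : Algebra ℂ (UL 𝒰) :=
  ((mkU 𝒰).comp (Pi.constRingHom ι ℂ)).toAlgebra

lemma algebraMap_UL (c : ℂ) : algebraMap ℂ (UL 𝒰) c = mkU 𝒰 (fun _ => c) := rfl

instance instCharZeroUL : CharZero (UL 𝒰) :=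
  charZero_of_injective_algebraMap (algebraMap ℂ (UL 𝒰)).injective

variable (𝒰)

/-- evaluation along `z` -/
noncomputable def piz {E : Type} (z : ι → E) : (E → ℂ) →ₐ[ℂ] UL 𝒰 where
  toFun g := mkU 𝒰 (fun j => g (z j))
  map_one' := by
    rw [← map_one (mkU 𝒰)]; rfl
  map_mul' f g := by
    rw [← map_mul]; rfl
  map_zero' := by
    rw [← map_zero (mkU 𝒰)]; rfl
  map_add' f g := by
    rw [← map_add]; rfl
  commutes' c := by
    rw [algebraMap_UL]; rfl

lemma piz_apply {E : Type} (z : ι → E) (g : E → ℂ) : piz 𝒰 z g = mkU 𝒰 (fun j => g (z j)) := rfl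

/-- transitivity of algebraicity -/
lemma isAlgebraic_of_forall_mem {L : Type} [Field L] [Algebra ℂ L] {A B : Subalgebra ℂ L}
    (hAB : ∀ b ∈ B, IsAlgebraic A b) {h : L} (hh : IsAlgebraic B h) : IsAlgebraic A h := by
  obtain ⟨p, hp0, hp⟩ := hh
  let C : Subalgebra A L := Subalgebra.algebraicClosure A L
  let i : B →+* C :=
    { toFun := fun b => ⟨(b : L), (Subalgebra.mem_algebraicClosure A L).2 (hAB b b.2)⟩
      map_one' := rfl
      map_mul' := fun _ _ => rfl
      map_zero' := rfl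
      map_add' := fun _ _ => rfl }
  have hi : Function.Injective i := by
    intro a b hab
    have : ((i a : C) : L) = (i b : C) := by rw [hab]
    exact Subtype.ext this
  have h1 : IsAlgebraic C h := by
    refine ⟨p.map i, (Polynomial.map_ne_zero_iff hi).2 hp0, ?_⟩
    rw [Polynomial.aeval_def, Polynomial.eval₂_map]
    rw [Polynomial.aeval_def] at hp
    exact hp
  exact h1.restrictScalars A

end Pool.Agent.Hhelper23.CV
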