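import Pool.Agent.Hhelper23.CV.Reg

set_option autoImplicit false
set_option linter.unusedSectionVars false

open Filter Topology Metric

namespace Pool.Agent.Hhelper23.CV

lemma wron_line {φ ψ : ℂ → ℂ} {D : Set ℂ} (hD : IsOpen D) (hDc : IsPreconnected D) (h0 : (0:ℂ) ∈ D)
    (h1 : (1:ℂ) ∈ D) (hφ : DifferentiableOn ℂ φ D) (hψ : DifferentiableOn ℂ ψ D)
    (hW : ∀ t ∈ D, ψ t * deriv φ t = φ t * deriv ψ t) (hne : ψ 0 ≠ 0) :
    φ 1 = (φ 0 / ψ 0) * ψ 1 := by
  set c := φ 0 / ψ 0 with hc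
  set u : ℂ → ℂ := fun t => φ t - c * ψ t with hu
  have hud : DifferentiableOn ℂ u D := hφ.sub (hψ.const_mul c)
  have hderiv : ∀ t ∈ D, deriv u t = deriv φ t - c * deriv ψ t := by
    intro t ht
    have a1 := (hφ.differentiableAt (hD.mem_nhds ht)).hasDerivAt
    have a2 := (hψ.differentiableAt (hD.mem_nhds ht)).hasDerivAt
    exact (a1.sub (a2.const_mul c)).deriv
  have hu0 : u 0 = 0 := by
    simp only [hu, hc]
    field_simp
    ring
  have hψc : ContinuousAt ψ 0 := (hψ.differentiableAt (hD.mem_nhds h0)).continuousAt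
  obtain ⟨ε, hε, hball⟩ : ∃ ε > 0, ∀ t ∈ ball (0:ℂ) ε, t ∈ D ∧ ψ t ≠ 0 := by
    have := (hD.mem_nhds h0)
    have h2 := hψc.eventually_ne hne
    have h3 : ∀ᶠ t in 𝓝 (0:ℂ), t ∈ D ∧ ψ t ≠ 0 := by
      filter_upwards [this, h2] with t a b using ⟨a, b⟩
    obtain ⟨ε, hε, h⟩ := Metric.eventually_nhds_iff_ball.1 h3
    exact ⟨ε, hε, h⟩
  have hw : ∀ t ∈ ball (0:ℂ) ε, HasDerivAt (fun t => u t / ψ t) 0 t := by
    intro t ht
    obtain ⟨htD, hψt⟩ := hball t ht
    have a1 := (hud.differentiableAt (hD.mem_nhds htD)).hasDerivAt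
    have a2 := (hψ.differentiableAt (hD.mem_nhds htD)).hasDerivAt
    have a3 := a1.div a2 hψt
    have : (deriv u t * ψ t - u t * deriv ψ t) / ψ t ^ 2 = 0 := by
      rw [hderiv t htD]
      have := hW t htD
      have e : (deriv φ t - c * deriv ψ t) * ψ t - u t * deriv ψ t = 0 := by
        simp only [hu]
        linear_combination this
      rw [e, zero_div]
    rwa [this] at a3
  have hu_ball : ∀ t ∈ ball (0:ℂ) ε, u t = 0 := by
    intro t ht
    have h1 : DifferentiableOn ℂ (fun t => u t / ψ t) (ball (0:ℂ) ε) :=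
      fun t ht => (hw t ht).differentiableAt.differentiableWithinAt
    have h2 : (ball (0:ℂ) ε).EqOn (deriv (fun t => u t / ψ t)) 0 := fun t ht => (hw t ht).deriv
    have h3 := IsOpen.is_const_of_deriv_eq_zero isOpen_ball
      (convex_ball (0:ℂ) ε).isPreconnected h1 h2 ht (mem_ball_self hε)
    simp only [hu0, zero_div] at h3
    exact (div_eq_zero_iff.1 h3).resolve_right (hball t ht).2
  have hev : u =ᶠ[𝓝 0] 0 := by
    filter_upwards [ball_mem_nhds (0:ℂ) hε] with t ht using hu_ball t ht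
  have := (hud.analyticOnNhd hD).eqOn_zero_of_preconnected_of_eventuallyEq_zero hDc h0 hev h1
  simp only [hu, Pi.zero_apply, sub_eq_zero] at this
  exact this

section
variable {E : Type} [NormedAddCommGroup E] [NormedSpace ℂ E]

/-- restriction of a holomorphic function to a complex line in a ball -/
lemma line_setup {r : ℝ} (x0 x1 : E) (hx0 : x0 ∈ ball (0:E) r) (hx1 : x1 ∈ ball (0:E) r) :
    ∃ D : Set ℂ, IsOpen D ∧ IsPreconnected D ∧ (0:ℂ) ∈ D ∧ (1:ℂ) ∈ D ∧
      ∀ t ∈ D, x0 + t • (x1 - x0) ∈ ball (0:E) r := by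
  refine ⟨(fun t : ℂ => x0 + t • (x1 - x0)) ⁻¹' ball (0:E) r, ?_, ?_, ?_, ?_, fun t ht => ht⟩
  · exact isOpen_ball.preimage (by fun_prop)
  · apply Convex.isPreconnected
    intro s hs t ht a b ha hb hab
    simp only [Set.mem_preimage] at hs ht ⊢
    have : x0 + (a • s + b • t) • (x1 - x0) =
        a • (x0 + s • (x1 - x0)) + b • (x0 + t • (x1 - x0)) := by
      have hx : x0 = a • x0 + b • x0 := by rw [← add_smul, hab, one_smul]
      rw [smul_add, smul_add, add_smul, smul_assoc, smul_assoc]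
      calc x0 + (a • s • (x1 - x0) + b • t • (x1 - x0))
          = (a • x0 + b • x0) + (a • s • (x1 - x0) + b • t • (x1 - x0)) := by rw [← hx]
        _ = _ := by abel
    rw [this]
    exact convex_ball (0:E) r hs ht ha hb hab
  · simpa using hx0
  · simpa using hx1

lemma wronskian {a b : E → ℂ} (ha : Hol a) (hb : Hol b) (hne : ¬ ∀ᶠ x in 𝓝 (0:E), b x = 0)
    (hW : ∀ᶠ x in 𝓝 (0:E), ∀ v, b x * fderiv ℂ a x v = a x * fderiv ℂ b x v) :
    ∃ c : ℂ, ∀ᶠ x in 𝓝 (0:E), a x = c * b x := by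
  have hall : ∀ᶠ x in 𝓝 (0:E), DifferentiableAt ℂ a x ∧ DifferentiableAt ℂ b x ∧
      ∀ v, b x * fderiv ℂ a x v = a x * fderiv ℂ b x v := by
    filter_upwards [ha, hb, hW] with x h1 h2 h3 using ⟨h1, h2, h3⟩
  obtain ⟨r, hr, hball⟩ := Metric.eventually_nhds_iff_ball.1 hall
  obtain ⟨x0, hx0, hbx0⟩ : ∃ x0 ∈ ball (0:E) r, b x0 ≠ 0 := by
    by_contra hcon
    push Not at hcon
    exact hne (Metric.eventually_nhds_iff_ball.2 ⟨r, hr, hcon⟩)
  refine ⟨a x0 / b x0, Metric.eventually_nhds_iff_ball.2 ⟨r, hr, fun x1 hx1 => ?_⟩⟩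
  obtain ⟨D, hDo, hDc, h0, h1, hD⟩ := line_setup x0 x1 hx0 hx1
  have hline : ∀ t : ℂ, HasDerivAt (fun t : ℂ => x0 + t • (x1 - x0)) (x1 - x0) t := fun t =>
    hasDerivAt_line x0 (x1 - x0) t
  have hda : ∀ t ∈ D, HasDerivAt (fun t : ℂ => a (x0 + t • (x1 - x0)))
      (fderiv ℂ a (x0 + t • (x1 - x0)) (x1 - x0)) t := fun t ht =>
    ((hball _ (hD t ht)).1.hasFDerivAt).comp_hasDerivAt t (hline t)
  have hdb : ∀ t ∈ D, HasDerivAt (fun t : ℂ => b (x0 + t • (x1 - x0)))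
      (fderiv ℂ b (x0 + t • (x1 - x0)) (x1 - x0)) t := fun t ht =>
    ((hball _ (hD t ht)).2.1.hasFDerivAt).comp_hasDerivAt t (hline t)
  have key := wron_line (φ := fun t : ℂ => a (x0 + t • (x1 - x0)))
    (ψ := fun t : ℂ => b (x0 + t • (x1 - x0))) hDo hDc h0 h1
    (fun t ht => (hda t ht).differentiableAt.differentiableWithinAt)
    (fun t ht => (hdb t ht).differentiableAt.differentiableWithinAt)
    (fun t ht => by
      rw [(hda t ht).deriv, (hdb t ht).deriv]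
      exact (hball _ (hD t ht)).2.2 _) (by simpa using hbx0)
  simpa using key

/-- a nonzero holomorphic germ is nonzero along some line -/
lemma exists_direction {G : E → ℂ} (hG : Hol G) (hne : ¬ ∀ᶠ x in 𝓝 (0:E), G x = 0) :
    ∃ v : E, ¬ ∀ᶠ t in 𝓝 (0:ℂ), G (t • v) = 0 := by
  obtain ⟨r, hr, hball⟩ := Metric.eventually_nhds_iff_ball.1 hG
  obtain ⟨x0, hx0, hbx0⟩ : ∃ x0 ∈ ball (0:E) r, G x0 ≠ 0 := by
    by_contra hcon
    push Not at hcon
    exact hne (Metric.eventually_nhds_iff_ball.2 ⟨r, hr, hcon⟩)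
  refine ⟨x0, fun hcon => ?_⟩
  obtain ⟨D, hDo, hDc, h0, h1, hD⟩ := line_setup (0:E) x0 (mem_ball_self hr) hx0
  have hd : DifferentiableOn ℂ (fun t : ℂ => G (t • x0)) D := by
    intro t ht
    have h2 := hball _ (hD t ht)
    simp only [sub_zero, zero_add] at h2
    exact (h2.hasFDerivAt.comp_hasDerivAt t
      ((hasDerivAt_id t).smul_const x0)).differentiableAt.differentiableWithinAt
  have := (hd.analyticOnNhd hDo).eqOn_zero_of_preconnected_of_eventuallyEq_zero hDc h0 hcon h1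
  simp only [one_smul, Pi.zero_apply] at this
  exact hbx0 this

end

end Pool.Agent.Hhelper23.CV
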